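import Mathlib
import Pool.Agent.Helper10.Crit
import Pool.Agent.Helper11.Iso.Words
import Pool.Agent.Helper91.Iso.Stable

/-!
# Words in families which are irreducible under algebraic correspondences
-/

universe u v w t

open CategoryTheory Finset

namespace Pool.Agent.Helper11.Rl

open Pool.Agent.Helper10 SmProjVar SPre Pool.Agent.Helper10.GIT Iso

variable {k : Type u} [Field k] {K : Type t} [Field K] {Ω : Type v} [Field Ω] [Algebra K Ω]
  {P : SPre.{u, v, w, t} k K Ω}

variable (P) in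
/-- a family of classes, all even or all odd, on the span of which algebraic correspondences act
by arbitrary matrices -/
structure FamA (V : SmProjVar k) (n : ℕ) (e : Fin n → P.H V) : Prop where
  parity : (∀ b, e b ∈ P.ev V) ∨ (∀ b, e b ∈ P.od V)
  irr : ∀ U : Matrix (Fin n) (Fin n) Ω, ∃ c ∈ P.alg (V.prod V),
    ∀ b, op c (e b) = ∑ a, U a b • e a

/-- if all products of determinants vanish, the contractions of numerically trivial classes with
words vanish -/
theorem contr_word_of_detZeroA [CharZero Ω] {X Y : SmProjVar k} {m : ℕ} (hm : 0 < m)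
    {V : Fin m → SmProjVar k} {n : Fin m → ℕ} (e : ∀ t, Fin (n t) → P.H (V t))
    (he : ∀ t, FamA P (V t) (n t) (e t)) (f : ∀ t, Y.toOver ⟶ (V t).toOver) (hf : IsProdOf f)
    (hD : DetZero (P.wordSet X Y fun t b => P.pull (f t) (e t b)))
    {r : P.H (X.prod Y)} (hr : P.rad (X.prod Y) r) (w : Idx n) :
    P.contr X Y (word (fun t b => P.pull (f t) (e t b)) w) r = 0 := by
  classical
  have hn : ∀ t, 0 < n t := fun t => (w t).pos
  have h0 := Helper11.GIT.eq_zero_of_detZero hm hn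
    (tens P X Y fun t b => P.pull (f t) (e t b)) hD.span
    {ρ | ∃ (t : Fin m) (U : Matrix (Fin (n t)) (Fin (n t)) Ω), U.det ≠ 0 ∧
      ρ = Function.update (1 : Mats n Ω) t U.transpose} (by
      rintro _ ⟨t, U, hU, rfl⟩ s
      by_cases hs : s = t
      · subst hs
        rw [Function.update_self, Matrix.det_transpose]
        exact hU
      · rw [Function.update_of_ne hs, Pi.one_apply, Matrix.det_one]
        exact one_ne_zero) (by
      rintro _ ⟨t, U, -, rfl⟩ z hz
      obtain ⟨c, hc, hcU⟩ := (he t).irr U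
      exact tens_op e f hf t hc U hcU z hz) (by
      intro t
      rw [eq_top_iff]
      intro A _
      -- every matrix is a combination of invertible matrices
      obtain ⟨μ, hμ⟩ := exists_scalar A
      have h1 : A = (μ • (1 : Matrix (Fin (n t)) (Fin (n t)) Ω) + A) - μ • 1 := by
        rw [add_sub_cancel_left]
      rw [h1]
      refine Submodule.sub_mem _ (Submodule.subset_span ?_) (Submodule.smul_mem _ _
        (Submodule.subset_span ?_))
      · refine ⟨_, ⟨t, (μ • (1 : Matrix (Fin (n t)) (Fin (n t)) Ω) + A).transpose, ?_, rfl⟩, ?_⟩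
        · rw [Matrix.det_transpose]
          exact hμ
        · change Function.update (1 : Mats n Ω) t _ t = _
          rw [Function.update_self, Matrix.transpose_transpose]
      · refine ⟨_, ⟨t, 1, by rw [Matrix.det_one]; exact one_ne_zero, rfl⟩, ?_⟩
        change Function.update (1 : Mats n Ω) t _ t = _
        rw [Function.update_self, Matrix.transpose_one])
  refine P.nondeg X _ fun c => ?_
  have h1 := h0 _ (Submodule.subset_span ⟨r, hr, c, rfl⟩)
  exact congrFun h1 w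

/-- a set of families irreducible under algebraic correspondences, stable under conjugation -/
structure LabelSetA {κ : Type*} (T : κ → P.Test) (L : Set P.Lab)
    (lam : P.Lab → κ → Ω) : Prop where
  fam : ∀ l ∈ L, FamA P l.V l.n l.e
  eig : ∀ l ∈ L, ∀ (j : κ) (Z : SmProjVar k) (p : Fin l.n → (Z.toOver ⟶ l.V.toOver)),
    (rowDet fun i b => P.pull (p i) (l.e b)) ∈ (T j).E Z (lam l j)
  conj : ∀ l ∈ L, ∀ σ : Ω ≃ₐ[K] Ω, l.conj σ ∈ L
  fin : ∀ l ∈ L, (Set.range fun σ : Ω ≃ₐ[K] Ω => l.conj σ).Finite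

variable {κ : Type*} {T : κ → P.Test} {L : Set P.Lab} {lam : P.Lab → κ → Ω}

lemma dword_mem_E (hL : LabelSetA T L lam) {Z : SmProjVar k} {y : P.H Z}
    {S : Multiset P.Lab} (h : DWord Z y S) (hS : ∀ l ∈ S, l ∈ L) (j : κ) :
    y ∈ (T j).E Z (S.map fun l => lam l j).prod := by
  induction h with
  | one =>
    rw [Multiset.map_zero, Multiset.prod_zero]
    unfold Test.E
    rw [Module.End.mem_maxGenEigenspace]
    refine ⟨1, ?_⟩
    rw [pow_one, LinearMap.sub_apply, LinearMap.smul_apply, Module.End.one_apply, one_smul]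
    exact sub_eq_zero.mpr (map_one ((T j).γ.g Z))
  | cons l p _ ih =>
    rw [Multiset.map_cons, Multiset.prod_cons]
    exact Test.mul_mem_E (hL.eig l (hS l (Multiset.mem_cons_self _ _)) j Z p)
      (ih fun l hl => hS l (Multiset.mem_cons_of_mem hl))

/-- the orbit of a multiset is finite -/
lemma finite_orbitA (hL : LabelSetA T L lam) (S : Multiset P.Lab) (hS : ∀ l ∈ S, l ∈ L) :
    (Set.range fun σ : Ω ≃ₐ[K] Ω => S.map (Lab.conj σ)).Finite := by
  induction S using Multiset.induction_on with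
  | empty =>
    refine (Set.finite_singleton (0 : Multiset P.Lab)).subset ?_
    rintro _ ⟨σ, rfl⟩
    exact Multiset.map_zero _
  | cons l S ih =>
    have h1 := hL.fin l (hS l (Multiset.mem_cons_self _ _))
    have h2 := ih fun l hl => hS l (Multiset.mem_cons_of_mem hl)
    refine ((h1.prod h2).image fun x => x.1 ::ₘ x.2).subset ?_
    rintro _ ⟨σ, rfl⟩
    exact ⟨(l.conj σ, S.map (Lab.conj σ)), ⟨⟨σ, rfl⟩, ⟨σ, rfl⟩⟩, (Multiset.map_cons _ _ _).symm⟩

/-- the relations exclude non-vanishing contractions -/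
theorem not_dRealA [IsAlgClosed Ω]
    (hm : ∀ (σ τ : Ω ≃ₐ[K] Ω) X x, P.s (σ * τ) X x = P.s σ X (P.s τ X x))
    (hL : LabelSetA T L lam) (hR : Relations T L lam) {X : SmProjVar k} (hX : P.DP X)
    (hXT : ∀ j, (T j).Good X) {S : Multiset P.Lab} (hS0 : S ≠ 0) (hS : ∀ l ∈ S, l ∈ L) :
    ¬ DReal X S := by
  classical
  intro hreal
  have hfin := finite_orbitA hL S hS
  set O : Finset (Multiset P.Lab) := hfin.toFinset with hO
  have hmemO : ∀ A, A ∈ O ↔ ∃ σ : Ω ≃ₐ[K] Ω, S.map (Lab.conj σ) = A := by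
    intro A
    rw [hO, Set.Finite.mem_toFinset]
    exact Iff.rfl
  have hO0 : O.Nonempty := ⟨_, (hmemO _).mpr ⟨1, rfl⟩⟩
  have hOr : ∀ A ∈ O, DReal X A := by
    intro A hA
    obtain ⟨σ, rfl⟩ := (hmemO A).mp hA
    exact hreal.conj σ
  have hOL : ∀ A ∈ O, ∀ l ∈ A, l ∈ L := by
    intro A hA l hl
    obtain ⟨σ, rfl⟩ := (hmemO A).mp hA
    obtain ⟨l', hl', rfl⟩ := Multiset.mem_map.mp hl
    exact hL.conj l' (hS l' hl') σ
  have hOne : ∀ A ∈ O, A ≠ 0 := by
    intro A hA h0
    obtain ⟨σ, rfl⟩ := (hmemO A).mp hA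
    exact hS0 (Multiset.map_eq_zero.mp h0)
  have h1 : DReal X (∑ A ∈ O, A) :=
    Finset.sum_induction_nonempty _ _ (fun _ _ => DReal.add) hO0 hOr
  have h2 : ∑ A ∈ O, A ≠ 0 := by
    obtain ⟨A, hA⟩ := hO0
    intro h0
    have h3 := Finset.single_le_sum (f := fun A : Multiset P.Lab => A)
      (fun A _ => Multiset.zero_le A) hA
    rw [h0] at h3
    exact hOne A hA (le_antisymm h3 (Multiset.zero_le A))
  have h3 : ∀ l ∈ ∑ A ∈ O, A, l ∈ L := by
    intro l hl
    rw [Multiset.mem_sum] at hl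
    obtain ⟨A, hA, hl⟩ := hl
    exact hOL A hA l hl
  have hcomp : ∀ (σ τ : Ω ≃ₐ[K] Ω) (A : Multiset P.Lab),
      (A.map (Lab.conj τ)).map (Lab.conj σ) = A.map (Lab.conj (σ * τ)) := by
    intro σ τ A
    rw [Multiset.map_map]
    exact Multiset.map_congr rfl fun l _ => Lab.conj_conj hm σ τ l
  have hstab : ∀ (σ : Ω ≃ₐ[K] Ω), ∀ A ∈ O, A.map (Lab.conj σ) ∈ O := by
    intro σ A hA
    obtain ⟨τ, rfl⟩ := (hmemO A).mp hA
    exact (hmemO _).mpr ⟨σ * τ, (hcomp σ τ S).symm⟩
  have hinv : ∀ (σ : Ω ≃ₐ[K] Ω), ∀ A ∈ O, (A.map (Lab.conj σ)).map (Lab.conj σ⁻¹) = A := by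
    intro σ A hA
    obtain ⟨τ, rfl⟩ := (hmemO A).mp hA
    rw [hcomp, hcomp, inv_mul_cancel, one_mul]
  have hinv' : ∀ (σ : Ω ≃ₐ[K] Ω), ∀ A ∈ O, (A.map (Lab.conj σ⁻¹)).map (Lab.conj σ) = A := by
    intro σ A hA
    have := hinv σ⁻¹ A hA
    rwa [inv_inv] at this
  have h4 : ∀ σ : Ω ≃ₐ[K] Ω, (∑ A ∈ O, A).map (Lab.conj σ) = ∑ A ∈ O, A := by
    intro σ
    have h5 : (∑ A ∈ O, A).map (Lab.conj σ) = ∑ A ∈ O, A.map (Lab.conj σ) :=
      map_sum (Multiset.mapAddMonoidHom (Lab.conj σ)) _ _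
    rw [h5]
    exact Finset.sum_nbij' (fun A => A.map (Lab.conj σ)) (fun A => A.map (Lab.conj σ⁻¹))
      (hstab σ) (hstab σ⁻¹) (hinv σ) (hinv' σ) fun A _ => rfl
  have h5 : ∀ j, ((∑ A ∈ O, A).map fun l => lam l j).prod ∈ (T j).U := by
    intro j
    obtain ⟨V, F, hF, A, ⟨c, hA⟩, R, hRr, hne⟩ := h1
    exact Test.mem_of_contr_ne (((hXT j).pow c).retract hA) (dword_mem_E hL hF h3 j) hRr.1 hne
  obtain ⟨m, hm1, hm2⟩ := hR _ h2 h3 h4 h5
  obtain ⟨V, F, hF, hN⟩ := h1.nsmul hm1
  exact hN.not_alg hX (hm2 V F hF)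

/-- contractions with words in the families vanish, on the product of the varieties -/
theorem contr_word_eq_zero_of_relationsA [CharZero Ω] [IsAlgClosed Ω]
    (hm : ∀ (σ τ : Ω ≃ₐ[K] Ω) X x, P.s (σ * τ) X x = P.s σ X (P.s τ X x))
    (hL : LabelSetA T L lam) (hR : Relations T L lam) {X : SmProjVar k} (hX : P.DP X)
    (hXT : ∀ j, (T j).Good X) {Y : SmProjVar k} {m : ℕ} (hm0 : 0 < m) (l : Fin m → P.Lab)
    (hl : ∀ t, l t ∈ L) (f : ∀ t, Y.toOver ⟶ (l t).V.toOver) (hf : IsProdOf f)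
    (w : Idx fun t => (l t).n)
    {r : P.H (X.prod Y)} (hr : P.rad (X.prod Y) r) :
    P.contr X Y (word (fun t b => P.pull (f t) ((l t).e b)) w) r = 0 := by
  classical
  have hpar : ∀ t, (∀ b, P.pull (f t) ((l t).e b) ∈ P.ev Y) ∨
      ∀ b, P.pull (f t) ((l t).e b) ∈ P.od Y := by
    intro t
    rcases (hL.fam _ (hl t)).parity with h | h
    · exact .inl fun b => P.pull_ev _ _ (h b)
    · exact .inr fun b => P.pull_od _ _ (h b)
  by_contra hne
  have h1 : ¬ DetZero (P.wordSet X Y fun t b => P.pull (f t) ((l t).e b)) := fun h =>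
    hne (contr_word_of_detZeroA hm0 (fun t => (l t).e) (fun t => hL.fam _ (hl t)) f hf h hr w)
  unfold DetZero at h1
  push Not at h1
  obtain ⟨N, e, σ, hN, z, hz, h2⟩ := h1
  obtain ⟨N, rfl⟩ : ∃ N', N = N' + 1 := ⟨N - 1, by omega⟩
  have h3 : ∃ r : ℕ → P.H (X.prod Y), (∀ j, P.rad (X.prod Y) (r j)) ∧
      P.contr (X.selfProd N) (Y.selfProd N)
        (detClass (fun t b => P.pull (f t) ((l t).e b)) σ) (P.mixPow X Y N r) ≠ 0 := by
    by_contra h
    push Not at h
    exact h2 (detForm_eq_zero_of _ hpar σ h z hz)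
  obtain ⟨r', hr', h4⟩ := h3
  have hcard : ∀ t, e t * (l t).n = N + 1 := by
    intro t
    have h5 := Fintype.card_congr (σ t)
    rwa [Fintype.card_prod, Fintype.card_fin, Fintype.card_fin, Fintype.card_fin] at h5
  have hreal : DReal X (∑ t, e t • ({l t} : Multiset P.Lab)) := by
    refine ⟨Y.selfProd N, _, ?_, X.selfProd N, ⟨N, Retract.refl _⟩, _, mixPow_rad N r' hr', h4⟩
    unfold detClass
    refine DWord.ofFn fun t => ?_
    have h6 : e t • ({l t} : Multiset P.Lab) = ∑ _k : Fin (e t), {l t} := by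
      rw [Finset.sum_const, Finset.card_univ, Fintype.card_fin]
    rw [h6]
    refine DWord.ofFn fun k => ?_
    have h7 : (fun (i : Fin (l t).n) (b : Fin (l t).n) =>
        P.pull (Y.projPow N (σ t (k, i))) (P.pull (f t) ((l t).e b))) =
        fun i b => P.pull (Y.projPow N (σ t (k, i)) ≫ f t) ((l t).e b) := by
      funext i b
      exact pull_pull _ _ _
    rw [h7]
    exact DWord.single (l t) fun i => Y.projPow N (σ t (k, i)) ≫ f t
  refine not_dRealA hm hL hR hX hXT ?_ ?_ hreal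
  · intro h0
    have h5 : e ⟨0, hm0⟩ • ({l ⟨0, hm0⟩} : Multiset P.Lab) = 0 := by
      have h6 := Finset.single_le_sum (f := fun t => e t • ({l t} : Multiset P.Lab))
        (fun t _ => Multiset.zero_le _) (Finset.mem_univ (⟨0, hm0⟩ : Fin m))
      rw [h0] at h6
      exact le_antisymm h6 (Multiset.zero_le _)
    have h6 := congrArg Multiset.card h5
    rw [Multiset.card_nsmul, Multiset.card_singleton, Multiset.card_zero, mul_one] at h6
    have h7 := hcard ⟨0, hm0⟩
    rw [h6, zero_mul] at h7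
    omega
  · intro l' hl'
    rw [Multiset.mem_sum] at hl'
    obtain ⟨t, -, ht⟩ := hl'
    have h5 := Multiset.mem_of_mem_nsmul ht
    rw [Multiset.mem_singleton] at h5
    rw [h5]
    exact hl t

/-- **D for products with everything generated by the families** -/
theorem prod_dA [CharZero Ω] [IsAlgClosed Ω]
    (hm : ∀ (σ τ : Ω ≃ₐ[K] Ω) X x, P.s (σ * τ) X x = P.s σ X (P.s τ X x))
    (hL : LabelSetA T L lam) (hR : Relations T L lam) {X : SmProjVar k} (hX : P.DP X)
    (hXT : ∀ j, (T j).Good X) {Y : SmProjVar k} (hY : GenW L Y) : P.D (X.prod Y) := by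
  intro r hr
  refine eq_zero_of_contr hY fun y hy => ?_
  obtain ⟨Z, V, w, ⟨m, l, hl, f, b, rfl⟩, h, g, c, hc, rfl⟩ := hy
  obtain ⟨r', hr', h1⟩ := exists_contr_map h g hc hr
  rw [h1]
  rcases Nat.eq_zero_or_pos m with rfl | hm0
  · have h2 : word (fun t b => P.pull (f t) ((l t).e b)) b = 1 := by
      unfold word
      rw [List.ofFn_zero, List.prod_nil]
    rw [h2]
    exact hX 0 _ (contr_rad (P.one_mem Z) hr')
  · obtain ⟨m, rfl⟩ : ∃ m', m = m' + 1 := ⟨m - 1, by omega⟩
    obtain ⟨Z₁, q, hq⟩ := exists_prodFin m fun t => (l t).V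
    obtain ⟨F, hF⟩ := hq Z f
    have h2 : word (fun t b => P.pull (f t) ((l t).e b)) b =
        P.pull F (word (fun t b => P.pull (q t) ((l t).e b)) b) := by
      unfold word
      rw [map_list_prod, List.map_ofFn]
      congr 2
      funext t
      change _ = P.pull F (P.pull (q t) ((l t).e (b t)))
      rw [pull_pull, hF]
    rw [h2, contr_pull]
    exact contr_word_eq_zero_of_relationsA hm hL hR hX hXT hm0 l hl q hq b (pushF_rad _ hr')

end Pool.Agent.Helper11.Rl
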