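import Mathlib
import Pool.Agent.Helper11.Rl.Core

/-!
# Pieces of Tate type
-/

universe u v w t

open CategoryTheory Finset

namespace Pool.Agent.Helper11.Rl

open Pool.Agent.Helper10 SmProjVar SPre Pool.Agent.Helper10.GIT Iso

variable {k : Type u} [Field k] {K : Type t} [Field K] {Ω : Type v} [Field Ω] [Algebra K Ω]
  {P : SPre.{u, v, w, t} k K Ω}

variable (P) in
/-- a piece of Tate type for the symmetry `γ` with multiplier `q` -/
structure TateP (γ : P.Sym) (q : Ω) (V : SmProjVar k) (E : Submodule Ω (P.H V)) : Prop where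
  parity : E ≤ P.ev V ∨ E ≤ P.od V
  projector : ∃ c ∈ P.alg (V.prod V), ∀ y, op c y ∈ E ∧
    ∀ x ∈ E, P.tr V (x * op c y) = P.tr V (x * y)
  stable : ∀ y ∈ E, γ.g V y ∈ E
  conj : ∀ σ : Ω ≃ₐ[K] Ω, ∀ y ∈ E, P.s σ V y ∈ E
  diag : E ≤ Submodule.span Ω {y | y ∈ E ∧ ∃ a : Ω, γ.g V y = a • y}
  algebraic : ∀ (F : P.H V →ₗ[Ω] P.H V) (n : ℤ), (∀ y ∈ E, F y ∈ E) →
    (∀ y ∈ E, F (γ.g V y) = q ^ n • γ.g V (F y)) → ∃ c ∈ P.alg (V.prod V), ∀ y ∈ E, op c y = F y

/-- the part of `E` on which the eigenvalues of `γ` are in `β q ^ ℤ` -/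
def cls (γ : P.Sym) (q : Ω) {V : SmProjVar k} (E : Submodule Ω (P.H V)) (β : Ω) :
    Submodule Ω (P.H V) :=
  Submodule.span Ω {y | y ∈ E ∧ ∃ m : ℤ, γ.g V y = (β * q ^ m) • y}

/-- a basis of eigenvectors of the part of `E` on which the eigenvalues of `γ` are in
`β q ^ ℤ` -/
structure IsLab (γ : P.Sym) (q : Ω) {V : SmProjVar k} (E : Submodule Ω (P.H V)) (β : Ω) {n : ℕ}
    (e : Fin n → P.H V) : Prop where
  indep : LinearIndependent Ω e
  span : Submodule.span Ω (Set.range e) = cls γ q E β
  eig : ∀ b, ∃ m : ℤ, γ.g V (e b) = (β * q ^ m) • e b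

variable {γ : P.Sym} {q : Ω} {V : SmProjVar k} {E : Submodule Ω (P.H V)}

lemma cls_le (β : Ω) : cls γ q E β ≤ E := by
  unfold cls
  rw [Submodule.span_le]
  exact fun y hy => hy.1

lemma IsLab.mem {β : Ω} {n : ℕ} {e : Fin n → P.H V} (h : IsLab γ q E β e) (b : Fin n) :
    e b ∈ cls γ q E β := by
  rw [← h.span]
  exact Submodule.subset_span ⟨b, rfl⟩

lemma IsLab.mem' {β : Ω} {n : ℕ} {e : Fin n → P.H V} (h : IsLab γ q E β e) (b : Fin n) :
    e b ∈ E := cls_le β (h.mem b)

/-- the class only matters modulo powers of `q` -/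
lemma cls_mul_zpow (hq : q ≠ 0) (β : Ω) (m : ℤ) : cls γ q E (β * q ^ m) = cls γ q E β := by
  unfold cls
  congr 1
  ext y
  constructor
  · rintro ⟨hy, n, hn⟩
    exact ⟨hy, m + n, by rw [hn, zpow_add₀ hq, mul_assoc]⟩
  · rintro ⟨hy, n, hn⟩
    refine ⟨hy, n - m, ?_⟩
    rw [hn, mul_assoc, ← zpow_add₀ hq]
    congr 3
    ring

/-- eigenbases -/
lemma TateP.exists_eigenbasis (h : TateP P γ q V E) : ∃ (m : ℕ) (b : Fin m → P.H V)
    (a : Fin m → Ω), LinearIndependent Ω b ∧ Submodule.span Ω (Set.range b) = E ∧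
      ∀ i, γ.g V (b i) = a i • b i := by
  have hfin := P.fin V
  obtain ⟨s, hs, hspan, hind⟩ := exists_linearIndependent Ω
    {y | y ∈ E ∧ ∃ a : Ω, γ.g V y = a • y}
  have hE : Submodule.span Ω s = E := by
    rw [hspan]
    exact le_antisymm (Submodule.span_le.mpr fun y hy => hy.1) h.diag
  have hsf : Finite s := by
    have := hind.finite
    exact this
  obtain ⟨m, ⟨eqv⟩⟩ := Finite.exists_equiv_fin s
  choose a ha using fun i : s => (hs i.2).2
  refine ⟨m, fun i => (eqv.symm i : P.H V), fun i => a (eqv.symm i), ?_, ?_, fun i => ha _⟩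
  · exact hind.comp _ eqv.symm.injective
  · have h1 : Set.range (fun i => (eqv.symm i : P.H V)) = s := by
      rw [show (fun i => (eqv.symm i : P.H V)) = (Subtype.val ∘ eqv.symm) from rfl,
        Set.range_comp, eqv.symm.surjective.range_eq, Set.image_univ, Subtype.range_coe]
    rw [h1, hE]

/-- an eigenvector is a combination of the members of an eigenbasis with the same eigenvalue -/
lemma coord_eigen {m : ℕ} {b : Fin m → P.H V} {a : Fin m → Ω} (hb : LinearIndependent Ω b)
    (ha : ∀ i, γ.g V (b i) = a i • b i) {c : Fin m → Ω} {α : Ω}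
    (h : γ.g V (∑ i, c i • b i) = α • ∑ i, c i • b i) (i : Fin m) (hi : a i ≠ α) : c i = 0 := by
  have h1 : ∑ i, (c i * (a i - α)) • b i = 0 := by
    rw [map_sum] at h
    simp only [map_smul, ha, smul_smul, Finset.smul_sum] at h
    rw [← sub_eq_zero, ← Finset.sum_sub_distrib] at h
    rw [← h]
    refine Finset.sum_congr rfl fun i _ => ?_
    rw [← sub_smul]
    congr 1
    ring
  have h2 := Fintype.linearIndependent_iff.mp hb _ h1 i
  exact (mul_eq_zero.mp h2).resolve_right (sub_ne_zero.mpr hi)

/-- the classes, in terms of an eigenbasis -/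
lemma cls_eq_span {m : ℕ} {b : Fin m → P.H V} {a : Fin m → Ω} (hb : LinearIndependent Ω b)
    (hE : Submodule.span Ω (Set.range b) = E) (ha : ∀ i, γ.g V (b i) = a i • b i) (β : Ω) :
    cls γ q E β = Submodule.span Ω (b '' {i | ∃ n : ℤ, a i = β * q ^ n}) := by
  refine le_antisymm ?_ ?_
  · unfold cls
    rw [Submodule.span_le]
    rintro y ⟨hy, n, hn⟩
    rw [← hE, Submodule.mem_span_range_iff_exists_fun] at hy
    obtain ⟨c, rfl⟩ := hy
    refine Submodule.sum_mem _ fun i _ => ?_
    by_cases hi : a i = β * q ^ n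
    · exact Submodule.smul_mem _ _ (Submodule.subset_span ⟨i, ⟨n, hi⟩, rfl⟩)
    · rw [coord_eigen hb ha hn i hi, zero_smul]
      exact Submodule.zero_mem _
  · rw [Submodule.span_le]
    rintro _ ⟨i, ⟨n, hn⟩, rfl⟩
    refine Submodule.subset_span ⟨?_, n, ?_⟩
    · rw [← hE]
      exact Submodule.subset_span ⟨i, rfl⟩
    · rw [ha, hn]

/-- every class has a basis of eigenvectors -/
lemma exists_isLab {m : ℕ} {b : Fin m → P.H V} {a : Fin m → Ω} (hb : LinearIndependent Ω b)
    (hE : Submodule.span Ω (Set.range b) = E) (ha : ∀ i, γ.g V (b i) = a i • b i) (β : Ω) :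
    ∃ (n : ℕ) (φ : Fin n → Fin m), IsLab γ q E β (fun j => b (φ j)) ∧
      Function.Injective φ ∧ ∀ i, (∃ n : ℤ, a i = β * q ^ n) ↔ ∃ j, φ j = i := by
  classical
  set I : Finset (Fin m) := Finset.univ.filter fun i => ∃ n : ℤ, a i = β * q ^ n with hI
  have hmem : ∀ i, i ∈ I ↔ ∃ n : ℤ, a i = β * q ^ n := fun i => by
    rw [hI, Finset.mem_filter]
    exact ⟨fun h => h.2, fun h => ⟨Finset.mem_univ _, h⟩⟩
  let φ := I.equivFin.symm
  refine ⟨I.card, fun j => (φ j : Fin m), ⟨?_, ?_, fun j => ?_⟩, ?_, fun i => ?_⟩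
  · exact hb.comp _ (Subtype.val_injective.comp φ.injective)
  · rw [cls_eq_span hb hE ha]
    congr 1
    ext y
    constructor
    · rintro ⟨j, rfl⟩
      exact ⟨_, (hmem _).mp (φ j).2, rfl⟩
    · rintro ⟨i, hi, rfl⟩
      exact ⟨φ.symm ⟨i, (hmem i).mpr hi⟩, by simp⟩
  · obtain ⟨n, hn⟩ := (hmem _).mp (φ j).2
    exact ⟨n, by rw [ha, hn]⟩
  · exact Subtype.val_injective.comp φ.injective
  · rw [← hmem]
    constructor
    · intro hi
      exact ⟨φ.symm ⟨i, hi⟩, by simp⟩
    · rintro ⟨j, rfl⟩
      exact (φ j).2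

/-- a linear form with given values on an independent family -/
lemma exists_dual {M : Type*} [AddCommGroup M] [Module Ω M] {ι : Type*} {v : ι → M}
    (hv : LinearIndependent Ω v) (c : ι → Ω) : ∃ φ : M →ₗ[Ω] Ω, ∀ i, φ (v i) = c i := by
  obtain ⟨g, hg⟩ := LinearMap.exists_extend ((Module.Basis.span hv).constr Ω c)
  refine ⟨g, fun i => ?_⟩
  have h1 := LinearMap.congr_fun hg (Module.Basis.span hv i)
  rw [Module.Basis.constr_basis, LinearMap.comp_apply, Submodule.subtype_apply,
    Module.Basis.span_apply] at h1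
  exact h1

/-- algebraic correspondences act on a class by arbitrary matrices -/
theorem IsLab.famA (hq : q ≠ 0) (h : TateP P γ q V E) {β : Ω} {n : ℕ} {e : Fin n → P.H V}
    (he : IsLab γ q E β e) : FamA P V n e where
  parity := by
    rcases h.parity with hp | hp
    · exact .inl fun b => hp (he.mem' b)
    · exact .inr fun b => hp (he.mem' b)
  irr := by
    classical
    obtain ⟨m, b, a, hb, hE, ha⟩ := h.exists_eigenbasis
    -- the members of the eigenbasis outside the class
    let J := {i : Fin m // ¬ ∃ n : ℤ, a i = β * q ^ n}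
    have hdis : Disjoint (Submodule.span Ω (Set.range e))
        (Submodule.span Ω (Set.range fun j : J => b j)) := by
      rw [he.span, cls_eq_span hb hE ha]
      have h1 : (Set.range fun j : J => b j) = b '' {i | ¬ ∃ n : ℤ, a i = β * q ^ n} := by
        ext y
        constructor
        · rintro ⟨j, rfl⟩
          exact ⟨j, j.2, rfl⟩
        · rintro ⟨j, hj, rfl⟩
          exact ⟨⟨j, hj⟩, rfl⟩
      rw [h1]
      refine hb.disjoint_span_image ?_
      rw [Set.disjoint_left]
      exact fun i hi hi' => hi' hi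
    have hind : LinearIndependent Ω (Sum.elim e fun j : J => b j) :=
      he.indep.sum_type (hb.comp _ Subtype.val_injective) hdis
    choose r hr using he.eig
    -- the matrix units
    have hunit : ∀ i j : Fin n, ∃ c ∈ P.alg (V.prod V), ∀ l, op c (e l) =
        if l = j then e i else 0 := by
      intro i j
      obtain ⟨φ, hφ⟩ := exists_dual hind (Sum.elim (fun l => if l = j then 1 else 0) fun _ => 0)
      have hφe : ∀ l, φ (e l) = if l = j then 1 else 0 := fun l => hφ (Sum.inl l)
      have hφb : ∀ l : J, φ (b l) = 0 := fun l => hφ (Sum.inr l)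
      let F : P.H V →ₗ[Ω] P.H V := φ.smulRight (e i)
      have hF : ∀ y, F y = φ y • e i := fun y => rfl
      obtain ⟨c, hc, hcF⟩ := h.algebraic F (r j - r i) (fun y _ => by
        rw [hF]
        exact E.smul_mem _ (he.mem' i)) (by
        intro y hy
        rw [← hE] at hy
        -- the span of `e` and of the members of the eigenbasis outside the class
        have hy' : y ∈ Submodule.span Ω (Set.range e) ⊔
            Submodule.span Ω (Set.range fun j : J => b j) := by
          refine Submodule.span_le.mpr ?_ hy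
          rintro _ ⟨l, rfl⟩
          by_cases hl : ∃ n : ℤ, a l = β * q ^ n
          · refine Submodule.mem_sup_left ?_
            rw [he.span, cls_eq_span hb hE ha]
            exact Submodule.subset_span ⟨l, hl, rfl⟩
          · exact Submodule.mem_sup_right (Submodule.subset_span ⟨⟨l, hl⟩, rfl⟩)
        have key : ∀ y, (y ∈ Set.range e ∨ y ∈ Set.range fun j : J => b j) →
            F (γ.g V y) = q ^ (r j - r i) • γ.g V (F y) := by
          rintro y (⟨l, rfl⟩ | ⟨l, rfl⟩)
          · rw [hr, map_smul, hF, hφe]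
            by_cases hl : l = j
            · rw [if_pos hl, one_smul, hr, smul_smul, hl]
              congr 1
              have h3 : q ^ (r j) = q ^ (r j - r i) * q ^ (r i) := by
                rw [← zpow_add₀ hq, sub_add_cancel]
              rw [h3]
              ring
            · rw [if_neg hl, zero_smul, smul_zero, map_zero, smul_zero]
          · change F (γ.g V (b l)) = q ^ (r j - r i) • γ.g V (F (b l))
            rw [ha, map_smul, hF, hφb, zero_smul, smul_zero, map_zero, smul_zero]
        obtain ⟨y₁, hy₁, y₂, hy₂, rfl⟩ := Submodule.mem_sup.mp hy'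
        have hlin : ∀ s : Set (P.H V), (∀ y ∈ s, F (γ.g V y) = q ^ (r j - r i) • γ.g V (F y)) →
            ∀ y ∈ Submodule.span Ω s, F (γ.g V y) = q ^ (r j - r i) • γ.g V (F y) := by
          intro s hs y hy
          induction hy using Submodule.span_induction with
          | mem y hy => exact hs y hy
          | zero => simp
          | add x y _ _ hx hy => simp only [map_add, smul_add, hx, hy]
          | smul c x _ hx => rw [map_smul, map_smul, hx, map_smul, map_smul, smul_comm]
        rw [map_add, map_add, map_add, map_add, smul_add,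
          hlin _ (fun y hy => key y (.inl hy)) y₁ hy₁, hlin _ (fun y hy => key y (.inr hy)) y₂ hy₂])
      refine ⟨c, hc, fun l => ?_⟩
      rw [hcF _ (he.mem' l), hF, hφe]
      by_cases hl : l = j
      · rw [if_pos hl, if_pos hl, one_smul]
      · rw [if_neg hl, if_neg hl, zero_smul]
    choose c hc hcu using hunit
    intro U
    refine ⟨∑ i, ∑ j, U i j • c i j, Submodule.sum_mem _ fun i _ => Submodule.sum_mem _ fun j _ =>
      Submodule.smul_mem _ _ (hc i j), fun l => ?_⟩
    have hsum : ∀ (s : Finset (Fin n)) (f : Fin n → P.H (V.prod V)) (y : P.H V),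
        op (∑ i ∈ s, f i) y = ∑ i ∈ s, op (f i) y := by
      intro s f y
      induction s using Finset.induction_on with
      | empty => rw [Finset.sum_empty, Finset.sum_empty, op_zero, LinearMap.zero_apply]
      | insert a s ha ih =>
        rw [Finset.sum_insert ha, Finset.sum_insert ha, Iso.op_add, LinearMap.add_apply, ih]
    rw [hsum]
    refine Finset.sum_congr rfl fun i _ => ?_
    rw [hsum]
    have h3 : ∀ j, op (U i j • c i j) (e l) = if l = j then U i j • e i else 0 := by
      intro j
      rw [op_smul, LinearMap.smul_apply, hcu]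
      by_cases hl : l = j
      · rw [if_pos hl, if_pos hl]
      · rw [if_neg hl, if_neg hl, smul_zero]
    rw [Finset.sum_congr rfl fun j _ => h3 j, Finset.sum_ite_eq, if_pos (Finset.mem_univ _)]

end Pool.Agent.Helper11.Rl
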