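import Mathlib
import Pool.Agent.Helper11.Rl.Tate
import Pool.Agent.Helper11.Iso.Residual

/-!
# Duality of the classes of a piece of Tate type
-/

universe u v w t

open CategoryTheory Finset

namespace Pool.Agent.Helper11.Rl

open Pool.Agent.Helper10 SmProjVar SPre Pool.Agent.Helper10.GIT Iso

variable {k : Type u} [Field k] {K : Type t} [Field K] {Ω : Type v} [Field Ω] [Algebra K Ω]
  {P : SPre.{u, v, w, t} k K Ω}

variable {γ : P.Sym} {q : Ω} {V : SmProjVar k} {E : Submodule Ω (P.H V)}

/-- a linear map with given values on an independent family -/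
lemma exists_map_of_indep {M N : Type*} [AddCommGroup M] [Module Ω M] [AddCommGroup N]
    [Module Ω N] {ι : Type*} {v : ι → M}
    (hv : LinearIndependent Ω v) (c : ι → N) : ∃ φ : M →ₗ[Ω] N, ∀ i, φ (v i) = c i := by
  obtain ⟨g, hg⟩ := LinearMap.exists_extend ((Module.Basis.span hv).constr Ω c)
  refine ⟨g, fun i => ?_⟩
  have h1 := LinearMap.congr_fun hg (Module.Basis.span hv i)
  rw [Module.Basis.constr_basis, LinearMap.comp_apply, Submodule.subtype_apply,
    Module.Basis.span_apply] at h1
  exact h1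

/-- eigenvectors which are not orthogonal -/
lemma pair_eigen {s : Ω} (hs : ∀ z, P.tr V (γ.g V z) = s * P.tr V z) {x y : P.H V} {α α' : Ω}
    (hx : γ.g V x = α • x) (hy : γ.g V y = α' • y) (h : P.tr V (x * y) ≠ 0) : α * α' = s := by
  have h1 := hs (x * y)
  rw [map_mul (γ.g V), hx, hy, smul_mul_smul_comm, map_smul, smul_eq_mul] at h1
  exact mul_right_cancel₀ h h1

/-- classes which are not orthogonal -/
lemma cls_pair {d : ℤ} (hs : ∀ z, P.tr V (γ.g V z) = q ^ d * P.tr V z) (hq : q ≠ 0) {β β' : Ω}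
    {x y : P.H V} (hx : x ∈ cls γ q E β) (hy : y ∈ cls γ q E β') (h : P.tr V (x * y) ≠ 0) :
    ∃ n : ℤ, β * β' = q ^ n := by
  by_contra hcon
  apply h
  unfold cls at hx hy
  induction hx using Submodule.span_induction with
  | zero => rw [zero_mul, map_zero]
  | add a b _ _ ha hb =>
    by_contra h0
    rw [add_mul, map_add] at h0
    by_cases h1 : P.tr V (a * y) = 0
    · by_cases h2 : P.tr V (b * y) = 0
      · exact h0 (by rw [h1, h2, add_zero])
      · exact h2 (hb h2)
    · exact h1 (ha h1)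
  | smul c a _ ha =>
    by_contra h0
    rw [smul_mul_assoc, map_smul, smul_eq_mul] at h0
    exact (right_ne_zero_of_mul h0) (ha (right_ne_zero_of_mul h0))
  | mem x hx =>
    obtain ⟨-, m, hm⟩ := hx
    clear h
    induction hy using Submodule.span_induction with
    | zero => rw [mul_zero, map_zero]
    | add a b _ _ ha hb => rw [mul_add, map_add, ha, hb, add_zero]
    | smul c a _ ha => rw [mul_smul_comm, map_smul, ha, smul_zero]
    | mem y hy =>
      obtain ⟨-, m', hm'⟩ := hy
      by_contra h0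
      have h1 := pair_eigen hs hm hm' h0
      refine hcon ⟨d - m - m', ?_⟩
      have h2 : β * β' * q ^ (m + m') = q ^ d := by
        rw [← h1, zpow_add₀ hq]
        ring
      have h3 : q ^ d = q ^ (d - m - m') * q ^ (m + m') := by
        rw [← zpow_add₀ hq]
        congr 1
        ring
      rw [h3] at h2
      exact mul_right_cancel₀ (zpow_ne_zero _ hq) h2

/-- the sign of the parity -/
lemma TateP.exists_sign (h : TateP P γ q V E) : ∃ s : Ω, (s = 1 ∨ s = -1) ∧
    ∀ x ∈ E, ∀ y, P.tr V (y * x) = s * P.tr V (x * y) := by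
  rcases h.parity with hp | hp
  · exact ⟨1, .inl rfl, fun x hx y => by rw [P.ev_comm V _ _ (hp hx), one_mul]⟩
  · refine ⟨-1, .inr rfl, fun x hx y => ?_⟩
    obtain ⟨a, ha, b, hb, rfl⟩ := P.exists_decomp V y
    rw [add_mul, map_add, mul_add, map_add, P.tr_od V _ (P.ev_mul_od V _ _ ha (hp hx)),
      P.tr_od V _ (P.od_mul_ev V _ _ (hp hx) ha), P.od_anti V _ _ hb (hp hx), map_neg]
    ring

/-- classes are not orthogonal to the dual classes -/
lemma TateP.exists_pair {d : ℤ} (hs : ∀ z, P.tr V (γ.g V z) = q ^ d * P.tr V z) (hq : q ≠ 0)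
    (h : TateP P γ q V E) {β β' : Ω} {n : ℤ} (hβ : β * β' = q ^ n) {y : P.H V}
    (hy : y ∈ cls γ q E β) (hy0 : y ≠ 0) : ∃ x ∈ cls γ q E β', P.tr V (y * x) ≠ 0 := by
  obtain ⟨v, hv⟩ : ∃ v, P.tr V (y * v) ≠ 0 := by
    by_contra hcon
    push Not at hcon
    exact hy0 (P.nondeg V y hcon)
  obtain ⟨c, -, hcE⟩ := h.projector
  obtain ⟨hx1, hx2⟩ := hcE v
  have hv' : P.tr V (y * op c v) ≠ 0 := by
    rw [hx2 y (cls_le β hy)]
    exact hv
  obtain ⟨m, b, a, hb, hE, ha⟩ := h.exists_eigenbasis
  rw [← hE, Submodule.mem_span_range_iff_exists_fun] at hx1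
  obtain ⟨w, hw⟩ := hx1
  rw [← hw, Finset.mul_sum, map_sum] at hv'
  obtain ⟨i, -, hi⟩ := Finset.exists_ne_zero_of_sum_ne_zero hv'
  rw [mul_smul_comm, map_smul, smul_eq_mul] at hi
  have hi' := right_ne_zero_of_mul hi
  have hbE : b i ∈ E := by
    rw [← hE]
    exact Submodule.subset_span ⟨i, rfl⟩
  have hbc : b i ∈ cls γ q E (a i) := Submodule.subset_span ⟨hbE, 0, by rw [zpow_zero, mul_one, ha]⟩
  obtain ⟨n', hn'⟩ := cls_pair hs hq hy hbc hi'
  refine ⟨b i, ?_, hi'⟩
  have hβ0 : β ≠ 0 := by
    rintro rfl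
    rw [zero_mul] at hβ
    exact zpow_ne_zero n hq hβ.symm
  refine Submodule.subset_span ⟨hbE, n' - n, ?_⟩
  rw [ha]
  congr 1
  refine mul_left_cancel₀ hβ0 ?_
  rw [hn', ← mul_assoc, hβ, ← zpow_add₀ hq]
  congr 1
  ring

section Pair

variable {d : ℤ} (hs : ∀ z, P.tr V (γ.g V z) = q ^ d * P.tr V z) (hq : q ≠ 0)
  (h : TateP P γ q V E) {β β' : Ω} {n : ℤ} (hβ : β * β' = q ^ n)

include hs hq h hβ

/-- non-degeneracy, on the left -/
lemma gram_left {m m' : ℕ} {e : Fin m → P.H V} {e' : Fin m' → P.H V}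
    (he : IsLab γ q E β e) (he' : IsLab γ q E β' e') {c : Fin m → Ω}
    (hc : ∀ b, P.tr V ((∑ a, c a • e a) * e' b) = 0) : c = 0 := by
  have h1 : ∑ a, c a • e a = 0 := by
    by_contra h0
    obtain ⟨x, hx, hx0⟩ := h.exists_pair hs hq hβ
      (Submodule.sum_mem _ fun a _ => Submodule.smul_mem _ _ (he.mem a)) h0
    rw [← he'.span, Submodule.mem_span_range_iff_exists_fun] at hx
    obtain ⟨w, rfl⟩ := hx
    apply hx0
    rw [Finset.mul_sum, map_sum]
    refine Finset.sum_eq_zero fun b _ => ?_
    rw [mul_smul_comm, map_smul, hc, smul_zero]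
  funext a
  exact Fintype.linearIndependent_iff.mp he.indep c h1 a

/-- non-degeneracy, on the right -/
lemma gram_right {m m' : ℕ} {e : Fin m → P.H V} {e' : Fin m' → P.H V}
    (he : IsLab γ q E β e) (he' : IsLab γ q E β' e') {c : Fin m' → Ω}
    (hc : ∀ a, P.tr V (e a * ∑ b, c b • e' b) = 0) : c = 0 := by
  obtain ⟨s, hs1, hsx⟩ := h.exists_sign
  refine gram_left hs hq h (by rw [mul_comm]; exact hβ) he' he fun a => ?_
  have h1 : ∑ b, c b • e' b ∈ E :=
    Submodule.sum_mem _ fun b _ => Submodule.smul_mem _ _ (he'.mem' b)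
  have h2 := hsx _ h1 (e a)
  rw [hc a] at h2
  rcases hs1 with rfl | rfl
  · rw [one_mul] at h2
    exact h2.symm
  · rw [neg_one_mul] at h2
    exact neg_eq_zero.mp h2.symm

/-- dual classes have the same dimension -/
lemma IsLab.card_eq {m m' : ℕ} {e : Fin m → P.H V} {e' : Fin m' → P.H V}
    (he : IsLab γ q E β e) (he' : IsLab γ q E β' e') : m = m' := by
  refine le_antisymm ?_ ?_
  · let φ : (Fin m → Ω) →ₗ[Ω] (Fin m' → Ω) :=
      LinearMap.pi fun b => (P.tr V) ∘ₗ (LinearMap.mulRight Ω (e' b)) ∘ₗ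
        Fintype.linearCombination Ω e
    have hφ : Function.Injective φ := by
      rw [injective_iff_map_eq_zero]
      intro c hc
      exact gram_left hs hq h hβ he he' fun b => congrFun hc b
    have := LinearMap.finrank_le_finrank_of_injective hφ
    simpa using this
  · let φ : (Fin m' → Ω) →ₗ[Ω] (Fin m → Ω) :=
      LinearMap.pi fun a => (P.tr V) ∘ₗ (LinearMap.mulLeft Ω (e a)) ∘ₗ
        Fintype.linearCombination Ω e'
    have hφ : Function.Injective φ := by
      rw [injective_iff_map_eq_zero]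
      intro c hc
      exact gram_right hs hq h hβ he he' fun a => congrFun hc a
    have := LinearMap.finrank_le_finrank_of_injective hφ
    simpa using this

/-- the duality between two classes is given by an algebraic class -/
theorem exists_dual_class {m : ℕ} {e e' : Fin m → P.H V}
    (he : IsLab γ q E β e) (he' : IsLab γ q E β' e') :
    ∃ B : Matrix (Fin m) (Fin m) Ω, B.det ≠ 0 ∧
      ∑ a, ∑ b, B a b • (P.pull (fst V V) (e a) * P.pull (snd V V) (e' b)) ∈
        P.alg (V.prod V) := by
  classical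
  obtain ⟨s, hs1, hsx⟩ := h.exists_sign
  have hss : s * s = 1 := by rcases hs1 with rfl | rfl <;> ring
  set G : Matrix (Fin m) (Fin m) Ω := Matrix.of fun a b => P.tr V (e a * e' b) with hG
  have hdet : G.det ≠ 0 := by
    intro h0
    obtain ⟨c, hc0, hc⟩ := Matrix.exists_mulVec_eq_zero_iff.mpr h0
    refine hc0 (gram_right hs hq h hβ he he' fun a => ?_)
    have h1 := congrFun hc a
    rw [Matrix.mulVec, dotProduct, Pi.zero_apply] at h1
    rw [Finset.mul_sum, map_sum, ← h1]
    refine Finset.sum_congr rfl fun b _ => ?_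
    rw [mul_smul_comm, map_smul, smul_eq_mul, mul_comm]
    rfl
  have hunit : IsUnit G.det := isUnit_iff_ne_zero.mpr hdet
  set B : Matrix (Fin m) (Fin m) Ω := s • (G⁻¹).transpose with hB
  have hBG : B * G.transpose = s • (1 : Matrix (Fin m) (Fin m) Ω) := by
    rw [hB, Matrix.smul_mul, ← Matrix.transpose_mul, Matrix.mul_nonsing_inv _ hunit,
      Matrix.transpose_one]
  -- the projector onto the class of `β'`
  obtain ⟨c₀, hc₀, hc₀E⟩ := h.projector
  obtain ⟨N, b, a, hb, hE, ha⟩ := h.exists_eigenbasis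
  obtain ⟨F, hF⟩ := exists_map_of_indep hb
    (fun i => if ∃ n : ℤ, a i = β' * q ^ n then b i else 0)
  have hbE : ∀ i, b i ∈ E := fun i => by
    rw [← hE]
    exact Submodule.subset_span ⟨i, rfl⟩
  have hFind : ∀ {p : P.H V → Prop}, (∀ i, p (b i)) → (∀ x y, p x → p y → p (x + y)) → p 0 →
      (∀ (r : Ω) x, p x → p (r • x)) → ∀ y ∈ E, p y := by
    intro p h1 h2 h3 h4 y hy
    rw [← hE] at hy
    induction hy using Submodule.span_induction with
    | mem y hy => obtain ⟨i, rfl⟩ := hy; exact h1 i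
    | zero => exact h3
    | add x y _ _ hx hy => exact h2 x y hx hy
    | smul r x _ hx => exact h4 r x hx
  have hFcls : ∀ y ∈ E, F y ∈ cls γ q E β' := by
    refine hFind (fun i => ?_) (fun x y hx hy => ?_) ?_ fun r x hx => ?_
    · rw [hF]
      split_ifs with hi
      · obtain ⟨n', hn'⟩ := hi
        exact Submodule.subset_span ⟨hbE i, n', by rw [ha, hn']⟩
      · exact Submodule.zero_mem _
    · rw [map_add]; exact Submodule.add_mem _ hx hy
    · rw [map_zero]; exact Submodule.zero_mem _
    · rw [map_smul]; exact Submodule.smul_mem _ _ hx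
  obtain ⟨c₁, hc₁, hc₁F⟩ := h.algebraic F 0 (fun y hy => cls_le β' (hFcls y hy)) (by
    refine hFind (fun i => ?_) (fun x y hx hy => ?_) ?_ fun r x hx => ?_
    · rw [ha, map_smul, hF, zpow_zero, one_smul]
      split_ifs with hi
      · rw [ha]
      · rw [smul_zero, map_zero]
    · simp only [map_add, smul_add, hx, hy]
    · simp
    · rw [map_smul, map_smul, hx, map_smul, map_smul, smul_comm])
  -- `F` does not change the pairing with the class of `β`
  have hFpair : ∀ i : Fin m, ∀ y ∈ E, P.tr V (e i * F y) = P.tr V (e i * y) := by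
    intro i
    refine hFind (fun j => ?_) (fun x y hx hy => ?_) ?_ fun r x hx => ?_
    · rw [hF]
      split_ifs with hj
      · rfl
      · rw [mul_zero, map_zero]
        by_contra h0
        have hbc : b j ∈ cls γ q E (a j) :=
          Submodule.subset_span ⟨hbE j, 0, by rw [zpow_zero, mul_one, ha]⟩
        obtain ⟨n', hn'⟩ := cls_pair hs hq (he.mem i) hbc (Ne.symm h0)
        have hβ0 : β ≠ 0 := by
          rintro rfl
          rw [zero_mul] at hβ
          exact zpow_ne_zero n hq hβ.symm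
        refine hj ⟨n' - n, ?_⟩
        refine mul_left_cancel₀ hβ0 ?_
        rw [hn', ← mul_assoc, hβ, ← zpow_add₀ hq]
        congr 1
        ring
    · rw [map_add, mul_add, mul_add, map_add, map_add, hx, hy]
    · rw [map_zero]
    · rw [map_smul, mul_smul_comm, mul_smul_comm, map_smul, map_smul, hx]
  set δ : P.H (V.prod V) := ∑ a, ∑ b, B a b • P.ext V V (e a) (e' b) with hδ
  have hsum : ∀ (f : Fin m → P.H (V.prod V)), op (∑ a, f a) = ∑ a, op (f a) := by
    intro f
    have h1 : ∀ s : Finset (Fin m), op (∑ a ∈ s, f a) = ∑ a ∈ s, op (f a) := by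
      intro s
      induction s using Finset.induction_on with
      | empty => rw [Finset.sum_empty, Finset.sum_empty, op_zero]
      | insert a s ha ih => rw [Finset.sum_insert ha, Finset.sum_insert ha, Iso.op_add, ih]
    exact h1 _
  have hopδ : ∀ v, op δ v = ∑ b', (∑ a', B a' b' * P.tr V (v * e a')) • e' b' := by
    intro v
    rw [hδ, hsum, LinearMap.sum_apply]
    simp only [hsum, op_smul, LinearMap.sum_apply, LinearMap.smul_apply, op_ext]
    rw [Finset.sum_comm]
    refine Finset.sum_congr rfl fun b' _ => ?_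
    rw [Finset.sum_smul]
    refine Finset.sum_congr rfl fun a' _ => ?_
    rw [smul_smul]
  have hδev : δ ∈ P.ev (V.prod V) := by
    refine Submodule.sum_mem _ fun a' _ => Submodule.sum_mem _ fun b' _ =>
      Submodule.smul_mem _ _ ?_
    rcases h.parity with hp | hp
    · exact P.ev_mul_ev _ _ _ (P.pull_ev _ _ (hp (he.mem' a'))) (P.pull_ev _ _ (hp (he'.mem' b')))
    · exact P.od_mul_od _ _ _ (P.pull_od _ _ (hp (he.mem' a'))) (P.pull_od _ _ (hp (he'.mem' b')))
  have hop : ∀ v, op δ v = op c₁ (op c₀ v) := by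
    intro v
    obtain ⟨h1, h2⟩ := hc₀E v
    rw [hc₁F _ h1, hopδ]
    have h3 := hFcls _ h1
    rw [← he'.span, Submodule.mem_span_range_iff_exists_fun] at h3
    obtain ⟨w, hw⟩ := h3
    have h4 : (fun b' => (∑ a', B a' b' * P.tr V (v * e a')) - w b') = 0 := by
      refine gram_right hs hq h hβ he he' fun i => ?_
      simp only [sub_smul, Finset.sum_sub_distrib]
      rw [mul_sub, map_sub, hw, hFpair i _ h1, h2 _ (he.mem' i), sub_eq_zero,
        Finset.mul_sum, map_sum]
      have h5 : ∀ b', P.tr V (e i * (∑ a', B a' b' * P.tr V (v * e a')) • e' b') =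
          ∑ a', B a' b' * G.transpose b' i * P.tr V (v * e a') := by
        intro b'
        rw [mul_smul_comm, map_smul, smul_eq_mul, Finset.sum_mul]
        refine Finset.sum_congr rfl fun a' _ => ?_
        rw [hG, Matrix.transpose_apply, Matrix.of_apply]
        ring
      rw [Finset.sum_congr rfl fun b' _ => h5 b', Finset.sum_comm]
      have h6 : ∀ a', ∑ b', B a' b' * G.transpose b' i * P.tr V (v * e a') =
          (if a' = i then s else 0) * P.tr V (v * e a') := by
        intro a'
        rw [← Finset.sum_mul, ← Matrix.mul_apply, hBG, Matrix.smul_apply, Matrix.one_apply,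
          smul_eq_mul, mul_ite, mul_one, mul_zero]
      rw [Finset.sum_congr rfl fun a' _ => h6 a', Finset.sum_eq_single i, if_pos rfl,
        hsx _ (he.mem' i), ← mul_assoc, hss, one_mul]
      · intro a' _ hne
        rw [if_neg hne, zero_mul]
      · intro hi
        exact absurd (Finset.mem_univ _) hi
    rw [← hw]
    refine Finset.sum_congr rfl fun b' _ => ?_
    congr 1
    exact sub_eq_zero.mp (congrFun h4 b')
  refine ⟨B, ?_, ?_⟩
  · rw [hB, Matrix.det_smul, Matrix.det_transpose, Matrix.det_nonsing_inv]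
    refine mul_ne_zero (pow_ne_zero _ ?_) (hunit.ringInverse.ne_zero)
    rcases hs1 with rfl | rfl
    · exact one_ne_zero
    · exact neg_ne_zero.mpr one_ne_zero
  · change δ ∈ P.alg (V.prod V)
    have h7 := comp_mem hc₀ hc₁
    have h8 : δ = _ := op_inj hδev (P.alg_le_ev _ h7) fun x => by
      rw [Iso.op_comp, hop]
    rw [h8]
    exact h7

end Pair

end Pool.Agent.Helper11.Rl
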