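import Mathlib
import Pool.Agent.Helper11.Rl.Dual
import Pool.Agent.Helper11.DualFam

/-!
# Balanced products of determinants are algebraic
-/

universe u v w t

open CategoryTheory Finset

namespace Pool.Agent.Helper11.Rl

open Pool.Agent.Helper10 SmProjVar SPre Pool.Agent.Helper10.GIT Iso

variable {k : Type u} [Field k] {K : Type t} [Field K] {Ω : Type v} [Field Ω] [Algebra K Ω]
  {P : SPre.{u, v, w, t} k K Ω}

/-- moving a determinant to the front -/
lemma DWord.swap {Z : SmProjVar k} {y : P.H Z} {S' : Multiset P.Lab} (h : DWord Z y S')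
    (hpar : ∀ l ∈ S', (∀ b, l.e b ∈ P.ev l.V) ∨ ∀ b, l.e b ∈ P.od l.V) {l : P.Lab}
    {S : Multiset P.Lab} (hS : S' = l ::ₘ S) :
    ∃ (p : Fin l.n → (Z.toOver ⟶ l.V.toOver)) (y' : P.H Z) (s : Ω), DWord Z y' S ∧
      y = s • ((rowDet fun i b => P.pull (p i) (l.e b)) * y') := by
  induction h generalizing S with
  | one => exact absurd hS.symm (Multiset.cons_ne_zero)
  | @cons l₁ p₁ y₁ S₁ h₁ ih =>
    rcases Multiset.cons_eq_cons.mp hS with ⟨rfl, rfl⟩ | ⟨-, cs, h2, rfl⟩
    · exact ⟨p₁, y₁, 1, h₁, by rw [one_smul]⟩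
    · obtain ⟨p, y', s, hy', rfl⟩ := ih (fun l hl => hpar l (Multiset.mem_cons_of_mem hl)) h2
      have hhom : ∀ (l : P.Lab), ((∀ b, l.e b ∈ P.ev l.V) ∨ ∀ b, l.e b ∈ P.od l.V) →
          ∀ p : Fin l.n → (Z.toOver ⟶ l.V.toOver),
          P.Hom Z (rowDet fun i b => P.pull (p i) (l.e b)) := by
        intro l hl p
        refine rowDet_hom _ ?_
        rcases hl with h | h
        · exact .inl fun i b => P.pull_ev _ _ (h b)
        · exact .inr fun i b => P.pull_od _ _ (h b)
      have hl : l ∈ l₁ ::ₘ S₁ := by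
        rw [h2]
        exact Multiset.mem_cons_of_mem (Multiset.mem_cons_self _ _)
      have h3 := hhom l₁ (hpar _ (Multiset.mem_cons_self _ _)) p₁
      have h4 := hhom l (hpar l hl) p
      have h5 := DWord.cons l₁ p₁ hy'
      rcases P.comm_or Z _ _ h3 h4 with h6 | h6
      · refine ⟨p, _, s, h5, ?_⟩
        rw [mul_smul_comm, ← mul_assoc, h6, mul_assoc]
      · refine ⟨p, _, -s, h5, ?_⟩
        rw [mul_smul_comm, ← mul_assoc, h6, neg_mul, smul_neg, neg_smul, mul_assoc]

section Labels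

variable (γ : P.Sym) (q : Ω) {r : ℕ} (V : Fin r → SmProjVar k)
  (E : ∀ c, Submodule Ω (P.H (V c)))

/-- the family `l` is a basis of eigenvectors of the class of `β` in `E c` -/
def Typ (l : P.Lab) (c : Fin r) (β : Ω) : Prop :=
  ∃ (n : ℕ) (e : Fin n → P.H (V c)), l = ⟨V c, n, e⟩ ∧ 0 < n ∧ IsLab γ q (E c) β e

/-- the bases of eigenvectors of the classes of the pieces -/
def labs : Set P.Lab := {l | ∃ c β, Typ γ q V E l c β}

open Classical in
/-- an element of a set -/
noncomputable def pick (A : Set (Fin r)) : Option (Fin r) :=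
  if h : A.Nonempty then some h.some else none

lemma pick_mem {A : Set (Fin r)} {c : Fin r} (h : pick A = some c) : c ∈ A := by
  unfold pick at h
  split_ifs at h with h1
  · rw [← Option.some.inj h]
    exact h1.some_mem

lemma exists_pick {A : Set (Fin r)} (h : A.Nonempty) : ∃ c, pick A = some c := by
  unfold pick
  rw [dif_pos h]
  exact ⟨_, rfl⟩

/-- the index of a family -/
noncomputable def cidx (l : P.Lab) : Option (Fin r) := pick {c | ∃ β, Typ γ q V E l c β}

/-- `l` has index `c` and is a basis of the class of `β` -/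
def Mt (l : P.Lab) (c : Fin r) (β : Ω) : Prop := cidx γ q V E l = some c ∧ Typ γ q V E l c β

variable {γ q V E}

lemma exists_Mt {l : P.Lab} (hl : l ∈ labs γ q V E) : ∃ c β, Mt γ q V E l c β := by
  obtain ⟨c, β, h⟩ := hl
  obtain ⟨c', hc'⟩ := exists_pick (A := {c | ∃ β, Typ γ q V E l c β}) ⟨c, β, h⟩
  obtain ⟨β', h'⟩ := pick_mem hc'
  exact ⟨c', β', hc', h'⟩

/-- the class of a family is determined by the family -/
lemma IsLab.class_eq (hq : q ≠ 0) {V : SmProjVar k} {E : Submodule Ω (P.H V)} {β β' : Ω} {n : ℕ}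
    {e : Fin n → P.H V} (hn : 0 < n) (h : IsLab γ q E β e) :
    IsLab γ q E β' e ↔ ∃ m : ℤ, β' = β * q ^ m := by
  constructor
  · intro h'
    obtain ⟨m, hm⟩ := h.eig ⟨0, hn⟩
    obtain ⟨m', hm'⟩ := h'.eig ⟨0, hn⟩
    have h0 : e ⟨0, hn⟩ ≠ 0 := h.indep.ne_zero _
    have h1 : β * q ^ m = β' * q ^ m' := by
      have h2 : (β * q ^ m - β' * q ^ m') • e ⟨0, hn⟩ = 0 := by
        rw [sub_smul, ← hm, ← hm', sub_self]
      exact sub_eq_zero.mp ((smul_eq_zero.mp h2).resolve_right h0)
    refine ⟨m - m', ?_⟩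
    refine mul_right_cancel₀ (zpow_ne_zero m' hq) ?_
    rw [← h1, mul_assoc, ← zpow_add₀ hq]
    congr 2
    ring
  · rintro ⟨m, rfl⟩
    refine ⟨h.indep, by rw [h.span, cls_mul_zpow hq], fun b => ?_⟩
    obtain ⟨m', hm'⟩ := h.eig b
    refine ⟨m' - m, ?_⟩
    rw [hm', mul_assoc, ← zpow_add₀ hq]
    congr 3
    ring

lemma Typ.class_eq (hq : q ≠ 0) {l : P.Lab} {c : Fin r} {β β' : Ω} (h : Typ γ q V E l c β) :
    Typ γ q V E l c β' ↔ ∃ m : ℤ, β' = β * q ^ m := by
  obtain ⟨n, e, rfl, hn, he⟩ := h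
  rw [← he.class_eq hq hn]
  constructor
  · rintro ⟨n', e', h1, -, he'⟩
    cases h1
    exact he'
  · intro h'
    exact ⟨n, e, rfl, hn, h'⟩

lemma Mt.iff (hq : q ≠ 0) {l : P.Lab} {c c' : Fin r} {β β' : Ω} (h : Mt γ q V E l c β) :
    Mt γ q V E l c' β' ↔ c' = c ∧ ∃ m : ℤ, β' = β * q ^ m := by
  constructor
  · rintro ⟨h1, h2⟩
    have h3 : c' = c := Option.some.inj (h1.symm.trans h.1)
    subst h3
    exact ⟨rfl, (h.2.class_eq hq).mp h2⟩
  · rintro ⟨rfl, h2⟩
    exact ⟨h.1, (h.2.class_eq hq).mpr h2⟩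

variable (γ q V E) in
open Classical in
/-- the number of families in `S` with index `c` and class `β` -/
noncomputable def num (S : Multiset P.Lab) (c : Fin r) (β : Ω) : ℕ :=
  S.countP fun l => Mt γ q V E l c β

lemma num_cons (l : P.Lab) (S : Multiset P.Lab) (c : Fin r) (β : Ω) [Decidable (Mt γ q V E l c β)] :
    num γ q V E (l ::ₘ S) c β = num γ q V E S c β + if Mt γ q V E l c β then 1 else 0 := by
  classical
  unfold num
  rw [Multiset.countP_cons]
  congr 1
  by_cases h : Mt γ q V E l c β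
  · rw [if_pos h, if_pos h]
  · rw [if_neg h, if_neg h]

/-- the hypotheses on the pieces -/
structure Pieces (γ : P.Sym) (q : Ω) (V : Fin r → SmProjVar k)
    (E : ∀ c, Submodule Ω (P.H (V c))) : Prop where
  ne_zero : q ≠ 0
  tate : ∀ c, TateP P γ q (V c) (E c)
  trace : ∀ c, ∃ d : ℤ, ∀ z, P.tr (V c) (γ.g (V c) z) = q ^ d * P.tr (V c) z

/-- the product of the determinants of dual families is algebraic -/
lemma pair_alg [CharZero Ω] (hP : Pieces γ q V E) {l l' : P.Lab} {c : Fin r} {β β' : Ω}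
    (h : Typ γ q V E l c β) (h' : Typ γ q V E l' c β') {n : ℤ} (hβ : β * β' = q ^ n)
    {Z : SmProjVar k} (p : Fin l.n → (Z.toOver ⟶ l.V.toOver))
    (p' : Fin l'.n → (Z.toOver ⟶ l'.V.toOver)) :
    (rowDet fun i b => P.pull (p i) (l.e b)) * (rowDet fun i b => P.pull (p' i) (l'.e b)) ∈
      P.alg Z := by
  obtain ⟨m, e, rfl, hm, he⟩ := h
  obtain ⟨m', e', rfl, hm', he'⟩ := h'
  obtain ⟨d, hd⟩ := hP.trace c
  have h1 := IsLab.card_eq hd hP.ne_zero (hP.tate c) hβ he he'
  subst h1
  obtain ⟨B, hB, halg⟩ := exists_dual_class hd hP.ne_zero (hP.tate c) hβ he he'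
  refine dets_of_same_parity hB halg ?_ Z p p'
  rcases (hP.tate c).parity with hp | hp
  · exact .inl ⟨fun b => hp (he.mem' b), fun b => hp (he'.mem' b)⟩
  · exact .inr ⟨fun b => hp (he.mem' b), fun b => hp (he'.mem' b)⟩

/-- balanced products of determinants are algebraic -/
theorem alg_of_balanced [CharZero Ω] (hP : Pieces γ q V E) : ∀ (N : ℕ) (S : Multiset P.Lab),
    Multiset.card S = N → (∀ l ∈ S, l ∈ labs γ q V E) →
    (∀ c β, num γ q V E S c β = num γ q V E S c β⁻¹) →
    (∀ c β, (∃ n : ℤ, β * β = q ^ n) → Even (num γ q V E S c β)) →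
    ∀ (Z : SmProjVar k) (y : P.H Z), DWord Z y S → y ∈ P.alg Z := by
  classical
  have hq := hP.ne_zero
  intro N
  induction N using Nat.strong_induction_on with
  | _ N ih =>
    intro S hN hS hbal heven Z y hy
    have hpar : ∀ l ∈ S, (∀ b, l.e b ∈ P.ev l.V) ∨ ∀ b, l.e b ∈ P.od l.V := by
      intro l hl
      obtain ⟨c, β, n, e, rfl, -, he⟩ := hS l hl
      rcases (hP.tate c).parity with hp | hp
      · exact .inl fun b => hp (he.mem' b)
      · exact .inr fun b => hp (he.mem' b)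
    cases hy with
    | one => exact P.one_mem Z
    | @cons l p y₁ S₁ h₁ =>
      obtain ⟨c, β, hl⟩ := exists_Mt (hS l (Multiset.mem_cons_self _ _))
      -- `β` is not zero
      have hβ0 : β ≠ 0 := by
        rintro rfl
        obtain ⟨n, e, -, hn, he⟩ := hl.2
        obtain ⟨m, hm⟩ := he.eig ⟨0, hn⟩
        rw [zero_mul, zero_smul] at hm
        exact he.indep.ne_zero ⟨0, hn⟩ ((map_eq_zero_iff _ (γ.g (V c)).injective).mp hm)
      have hββ : β * β⁻¹ = q ^ (0 : ℤ) := by rw [zpow_zero, mul_inv_cancel₀ hβ0]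
      -- a dual family in `S₁`
      have hex : 0 < num γ q V E S₁ c β⁻¹ := by
        have h2 := hbal c β
        rw [num_cons, num_cons, if_pos hl] at h2
        by_cases hcl : ∃ n : ℤ, β * β = q ^ n
        · have h3 := heven c β hcl
          rw [num_cons, if_pos hl] at h3
          have h4 : Mt γ q V E l c β⁻¹ := by
            obtain ⟨n, hn⟩ := hcl
            refine (hl.iff hq).mpr ⟨rfl, -n, ?_⟩
            rw [zpow_neg, ← hn]
            field_simp
          rw [if_pos h4] at h2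
          obtain ⟨j, hj⟩ := h3
          omega
        · have h4 : ¬ Mt γ q V E l c β⁻¹ := by
            intro h5
            obtain ⟨-, n, hn⟩ := (hl.iff hq).mp h5
            refine hcl ⟨-n, ?_⟩
            have h6 : β * β * q ^ n = 1 := by
              rw [mul_assoc, ← hn, mul_inv_cancel₀ hβ0]
            rw [zpow_neg]
            exact eq_inv_of_mul_eq_one_left h6
          rw [if_neg h4] at h2
          omega
      obtain ⟨l', hl'S, hl'⟩ := Multiset.countP_pos.mp (show 0 < Multiset.countP _ S₁ from hex)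
      obtain ⟨S₂, rfl⟩ := Multiset.exists_cons_of_mem hl'S
      obtain ⟨p', y₂, s, hy₂, rfl⟩ := DWord.swap h₁
        (fun l hl => hpar l (Multiset.mem_cons_of_mem hl)) rfl
      rw [mul_smul_comm, ← mul_assoc]
      refine Submodule.smul_mem _ _ (P.mul_mem Z _ _ (pair_alg hP hl.2 hl'.2 hββ p p') ?_)
      have hswap : ∀ c₁ β₁, Mt γ q V E l c₁ β₁⁻¹ ↔ Mt γ q V E l' c₁ β₁ := by
        intro c₁ β₁
        rw [hl.iff hq, hl'.iff hq]
        refine and_congr_right fun _ => ?_
        constructor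
        · rintro ⟨m, hm⟩
          refine ⟨-m, ?_⟩
          rw [zpow_neg, ← mul_inv, ← hm, inv_inv]
        · rintro ⟨m, hm⟩
          refine ⟨-m, ?_⟩
          rw [hm, mul_inv, inv_inv, zpow_neg]
      have hswap' : ∀ c₁ β₁, Mt γ q V E l' c₁ β₁⁻¹ ↔ Mt γ q V E l c₁ β₁ := by
        intro c₁ β₁
        rw [← hswap, inv_inv]
      refine ih (Multiset.card S₂) ?_ S₂ rfl (fun l hl => hS l (Multiset.mem_cons_of_mem
        (Multiset.mem_cons_of_mem hl))) (fun c₁ β₁ => ?_) (fun c₁ β₁ hβ₁ => ?_) Z y₂ hy₂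
      · rw [← hN, Multiset.card_cons, Multiset.card_cons]
        omega
      · have h2 := hbal c₁ β₁
        rw [num_cons, num_cons, num_cons, num_cons, if_congr (hswap c₁ β₁) rfl rfl,
          if_congr (hswap' c₁ β₁) rfl rfl] at h2
        omega
      · have h2 := heven c₁ β₁ hβ₁
        have h3 : Mt γ q V E l c₁ β₁ ↔ Mt γ q V E l' c₁ β₁ := by
          rw [← hswap]
          obtain ⟨n, hn⟩ := hβ₁
          have hβ₁0 : β₁ ≠ 0 := by
            rintro rfl
            rw [zero_mul] at hn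
            exact zpow_ne_zero n hq hn.symm
          rw [hl.iff hq, hl.iff hq]
          refine and_congr_right fun _ => ?_
          constructor
          · rintro ⟨m, hm⟩
            refine ⟨m - n, ?_⟩
            rw [zpow_sub₀ hq, ← hn, hm]
            have hqm := zpow_ne_zero m hq
            field_simp
          · rintro ⟨m, hm⟩
            refine ⟨m + n, ?_⟩
            rw [zpow_add₀ hq, ← mul_assoc, ← hm, ← hn]
            field_simp
        rw [num_cons, num_cons, if_congr h3 rfl rfl] at h2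
        split_ifs at h2
        · obtain ⟨j, hj⟩ := h2
          exact ⟨j - 1, by omega⟩
        · simpa using h2

end Labels

end Pool.Agent.Helper11.Rl
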