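import Mathlib
import Pool.Agent.Helper11.Rl.Comb

/-!
# Symmetric relations between eigenvalues
-/

universe u v w t

open CategoryTheory Finset

namespace Pool.Agent.Helper11.Rl

open Pool.Agent.Helper10 SmProjVar SPre Pool.Agent.Helper10.GIT Iso

variable {k : Type u} [Field k] {K : Type t} [Field K] {Ω : Type v} [Field Ω] [Algebra K Ω]
  {P : SPre.{u, v, w, t} k K Ω}

open Classical in
/-- the number of elements of `M` in `β q ^ ℤ` -/
noncomputable def cnt (q : Ω) (M : Multiset Ω) (β : Ω) : ℕ :=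
  M.countP fun α => ∃ n : ℤ, α = β * q ^ n

lemma cnt_add (q : Ω) (M M' : Multiset Ω) (β : Ω) :
    cnt q (M + M') β = cnt q M β + cnt q M' β := by
  classical
  unfold cnt
  exact Multiset.countP_add _ _ _

open Classical in
/-- the multiset of the eigenvalues of a basis of eigenvectors -/
noncomputable def ev (γ : P.Sym) (l : P.Lab) : Multiset Ω :=
  if h : ∃ a : Fin l.n → Ω, ∀ b, γ.g l.V (l.e b) = a b • l.e b then
    Finset.univ.val.map h.choose else 0

lemma ev_eq {γ : P.Sym} {l : P.Lab} {a : Fin l.n → Ω} (ha : ∀ b, γ.g l.V (l.e b) = a b • l.e b)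
    (h0 : ∀ b, l.e b ≠ 0) : ev γ l = Finset.univ.val.map a := by
  have h : ∃ a : Fin l.n → Ω, ∀ b, γ.g l.V (l.e b) = a b • l.e b := ⟨a, ha⟩
  unfold ev
  rw [dif_pos h]
  congr 1
  funext b
  have h1 := h.choose_spec b
  rw [ha b] at h1
  have h2 : (a b - h.choose b) • l.e b = 0 := by rw [sub_smul, h1, sub_self]
  exact (sub_eq_zero.mp ((smul_eq_zero.mp h2).resolve_right (h0 b))).symm

/-- determinants of bases of eigenvectors are eigenvectors -/
lemma rowDet_eigen (γ : P.Sym) {Z V : SmProjVar k} {n : ℕ} {e : Fin n → P.H V} {a : Fin n → Ω}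
    (ha : ∀ b, γ.g V (e b) = a b • e b) (p : Fin n → (Z.toOver ⟶ V.toOver)) :
    γ.g Z (rowDet fun i b => P.pull (p i) (e b)) =
      (∏ b, a b) • rowDet fun i b => P.pull (p i) (e b) := by
  rw [map_rowDet]
  unfold rowDet
  rw [Finset.smul_sum]
  refine Finset.sum_congr rfl fun π _ => ?_
  rw [smul_comm]
  congr 1
  have h1 : ∀ i, γ.g Z (P.pull (p i) (e (π i))) = a (π i) • P.pull (p i) (e (π i)) := by
    intro i
    rw [γ.pull, ha, map_smul]
  simp only [h1]
  rw [← MultilinearMap.mkPiAlgebraFin_apply (R := Ω), MultilinearMap.map_smul_univ,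
    MultilinearMap.mkPiAlgebraFin_apply]
  congr 1
  exact Equiv.prod_comp π a

section Labels

variable {γ : P.Sym} {q : Ω} {r : ℕ} {V : Fin r → SmProjVar k}
  {E : ∀ c, Submodule Ω (P.H (V c))}

/-- the eigenvalues of a basis of a class -/
lemma Typ.exists_eig {l : P.Lab} {c : Fin r} {β : Ω} (h : Typ γ q V E l c β) :
    ∃ a : Fin l.n → Ω, (∀ b, γ.g l.V (l.e b) = a b • l.e b) ∧ (∀ b, l.e b ≠ 0) ∧
      (∀ b, ∃ m : ℤ, a b = β * q ^ m) ∧ ev γ l = Finset.univ.val.map a := by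
  obtain ⟨n, e, rfl, hn, he⟩ := h
  choose m hm using he.eig
  have h0 : ∀ b, e b ≠ 0 := fun b => he.indep.ne_zero b
  exact ⟨fun b => β * q ^ m b, hm, h0, fun b => ⟨m b, rfl⟩, ev_eq hm h0⟩

lemma Typ.mem_eigen {l : P.Lab} {c : Fin r} {β α : Ω} (h : Typ γ q V E l c β)
    (hα : α ∈ ev γ l) : ∃ z ∈ E c, z ≠ 0 ∧ γ.g (V c) z = α • z := by
  obtain ⟨a, ha, h0, -, hev⟩ := h.exists_eig
  rw [hev, Multiset.mem_map] at hα
  obtain ⟨b, -, rfl⟩ := hα
  obtain ⟨n, e, rfl, hn, he⟩ := h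
  exact ⟨e b, he.mem' b, h0 b, ha b⟩

section Conj

variable (hm : ∀ (σ τ : Ω ≃ₐ[K] Ω) X x, P.s (σ * τ) X x = P.s σ X (P.s τ X x))
  (hγ : ∀ (σ : Ω ≃ₐ[K] Ω) X x, γ.g X (P.s σ X x) = P.s σ X (γ.g X x))
  (hqs : ∀ σ : Ω ≃ₐ[K] Ω, σ q = q) (hE : ∀ c, ∀ σ : Ω ≃ₐ[K] Ω, ∀ y ∈ E c, P.s σ (V c) y ∈ E c)

include hm in
lemma s_one (X : SmProjVar k) (x : P.H X) : P.s 1 X x = x := by
  have h1 := hm 1 1 X x
  rw [mul_one] at h1
  exact ((P.s 1 X).injective h1).symm

include hm in
lemma s_inv_apply (σ : Ω ≃ₐ[K] Ω) (X : SmProjVar k) (x : P.H X) :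
    P.s σ⁻¹ X (P.s σ X x) = x := by
  rw [← hm, inv_mul_cancel, s_one hm]

include hm in
lemma s_apply_inv (σ : Ω ≃ₐ[K] Ω) (X : SmProjVar k) (x : P.H X) :
    P.s σ X (P.s σ⁻¹ X x) = x := by
  rw [← hm, mul_inv_cancel, s_one hm]

include hγ hqs hE in
lemma s_mem_cls (σ : Ω ≃ₐ[K] Ω) {c : Fin r} {β : Ω} {y : P.H (V c)}
    (hy : y ∈ cls γ q (E c) β) : P.s σ (V c) y ∈ cls γ q (E c) (σ β) := by
  unfold cls at hy
  induction hy using Submodule.span_induction with
  | mem y hy =>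
    obtain ⟨hy, m, hm'⟩ := hy
    refine Submodule.subset_span ⟨hE c σ y hy, m, ?_⟩
    rw [hγ, hm', P.s_smul, map_mul, map_zpow₀, hqs]
  | zero => rw [map_zero]; exact Submodule.zero_mem _
  | add a b _ _ ha hb => rw [map_add]; exact Submodule.add_mem _ ha hb
  | smul a b _ hb => rw [P.s_smul]; exact Submodule.smul_mem _ _ hb

include hm hγ hqs hE in
lemma IsLab.conj (σ : Ω ≃ₐ[K] Ω) {c : Fin r} {β : Ω} {n : ℕ} {e : Fin n → P.H (V c)}
    (he : IsLab γ q (E c) β e) : IsLab γ q (E c) (σ β) fun b => P.s σ (V c) (e b) where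
  indep := by
    rw [Fintype.linearIndependent_iff]
    intro g hg i
    have h1 := congrArg (P.s σ⁻¹ (V c)) hg
    rw [map_sum, map_zero] at h1
    have h2 : ∑ i, (σ⁻¹ (g i)) • e i = 0 := by
      rw [← h1]
      refine Finset.sum_congr rfl fun i _ => ?_
      rw [P.s_smul, s_inv_apply hm]
    have h3 := Fintype.linearIndependent_iff.mp he.indep _ h2 i
    exact (map_eq_zero_iff _ (σ⁻¹ : Ω ≃ₐ[K] Ω).injective).mp h3
  span := by
    refine le_antisymm ?_ ?_
    · rw [Submodule.span_le]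
      rintro _ ⟨b, rfl⟩
      exact s_mem_cls hγ hqs hE σ (he.mem b)
    · intro y hy
      have h1 := s_mem_cls hγ hqs hE σ⁻¹ hy
      have h2 : σ⁻¹ (σ β) = β := by
        rw [← AlgEquiv.mul_apply, inv_mul_cancel]
        rfl
      rw [h2, ← he.span, Submodule.mem_span_range_iff_exists_fun] at h1
      obtain ⟨g, hg⟩ := h1
      have h3 := congrArg (P.s σ (V c)) hg
      rw [s_apply_inv hm, map_sum] at h3
      rw [← h3]
      refine Submodule.sum_mem _ fun i _ => ?_
      rw [P.s_smul]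
      exact Submodule.smul_mem _ _ (Submodule.subset_span ⟨i, rfl⟩)
  eig b := by
    obtain ⟨m, hm'⟩ := he.eig b
    exact ⟨m, by rw [hγ, hm', P.s_smul, map_mul, map_zpow₀, hqs]⟩

include hm hγ hqs hE in
lemma Typ.conj (σ : Ω ≃ₐ[K] Ω) {l : P.Lab} {c : Fin r} {β : Ω} (h : Typ γ q V E l c β) :
    Typ γ q V E (l.conj σ) c (σ β) := by
  obtain ⟨n, e, rfl, hn, he⟩ := h
  exact ⟨n, _, rfl, hn, he.conj hm hγ hqs hE σ⟩

include hm in
lemma conj_conj_inv (σ : Ω ≃ₐ[K] Ω) (l : P.Lab) : (l.conj σ).conj σ⁻¹ = l := by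
  unfold Lab.conj
  congr 1
  funext b
  exact s_inv_apply hm σ _ _

include hm hγ hqs hE in
lemma cidx_conj (σ : Ω ≃ₐ[K] Ω) (l : P.Lab) :
    cidx γ q V E (l.conj σ) = cidx γ q V E l := by
  have h1 : {c | ∃ β, Typ γ q V E (l.conj σ) c β} = {c | ∃ β, Typ γ q V E l c β} := by
    ext c
    constructor
    · rintro ⟨β, h⟩
      have h2 := h.conj hm hγ hqs hE σ⁻¹
      rw [conj_conj_inv hm] at h2
      exact ⟨_, h2⟩
    · rintro ⟨β, h⟩
      exact ⟨_, h.conj hm hγ hqs hE σ⟩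
  unfold cidx
  rw [h1]

include hγ in
lemma ev_conj (σ : Ω ≃ₐ[K] Ω) {l : P.Lab} (hl : l ∈ labs γ q V E) :
    ev γ (l.conj σ) = (ev γ l).map σ := by
  obtain ⟨c, β, h⟩ := hl
  obtain ⟨a, ha, h0, -, hev⟩ := h.exists_eig
  rw [hev, Multiset.map_map]
  refine ev_eq (l := l.conj σ) (a := σ ∘ a) (fun b => ?_) fun b => ?_
  · change γ.g l.V (P.s σ l.V (l.e b)) = σ (a b) • P.s σ l.V (l.e b)
    rw [hγ, ha, P.s_smul]
  · change P.s σ l.V (l.e b) ≠ 0
    exact (map_ne_zero_iff _ (P.s σ l.V).injective).mpr (h0 b)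

/-- the dimension of the class of `β` -/
noncomputable def dimc (γ : P.Sym) (q : Ω) (E : ∀ c, Submodule Ω (P.H (V c))) (c : Fin r)
    (β : Ω) : ℕ := Module.finrank Ω (cls γ q (E c) β)

lemma IsLab.card {c : Fin r} {β : Ω} {n : ℕ} {e : Fin n → P.H (V c)}
    (he : IsLab γ q (E c) β e) : n = dimc γ q E c β := by
  unfold dimc
  rw [← he.span, finrank_span_eq_card he.indep, Fintype.card_fin]

lemma Typ.card {l : P.Lab} {c : Fin r} {β : Ω} (h : Typ γ q V E l c β) :
    l.n = dimc γ q E c β := by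
  obtain ⟨n, e, rfl, hn, he⟩ := h
  exact he.card

lemma dimc_inv (hP : Pieces γ q V E) (c : Fin r) (β : Ω) :
    dimc γ q E c β = dimc γ q E c β⁻¹ := by
  by_cases hβ : β = 0
  · rw [hβ, inv_zero]
  obtain ⟨m, b, a, hb, hE', ha⟩ := (hP.tate c).exists_eigenbasis
  obtain ⟨n, φ, he, -, -⟩ := exists_isLab hb hE' ha β
  obtain ⟨n', φ', he', -, -⟩ := exists_isLab hb hE' ha β⁻¹
  obtain ⟨d, hd⟩ := hP.trace c
  have h1 := IsLab.card_eq hd hP.ne_zero (hP.tate c) (n := 0)
    (by rw [zpow_zero, mul_inv_cancel₀ hβ]) he he'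
  rw [← he.card, ← he'.card, h1]

open Classical in
/-- the eigenvalues of the families of `S` with index `c` -/
noncomputable def evs (γ : P.Sym) (q : Ω) (V : Fin r → SmProjVar k)
    (E : ∀ c, Submodule Ω (P.H (V c))) (S : Multiset P.Lab) (c : Fin r) : Multiset Ω :=
  (S.filter fun l => cidx γ q V E l = some c).bind (ev γ)

lemma cnt_ev (hq : q ≠ 0) {l : P.Lab} {c : Fin r} {β₀ : Ω} (h : Mt γ q V E l c β₀) (β : Ω)
    [Decidable (Mt γ q V E l c β)] :
    cnt q (ev γ l) β = if Mt γ q V E l c β then dimc γ q E c β else 0 := by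
  classical
  obtain ⟨a, ha, h0, haβ, hev⟩ := h.2.exists_eig
  have hiff := h.iff (c' := c) (β' := β) hq
  unfold cnt
  by_cases hM : Mt γ q V E l c β
  · rw [if_pos hM, ← hM.2.card]
    obtain ⟨-, m, hm⟩ := hiff.mp hM
    have h2 : ∀ α ∈ ev γ l, ∃ n : ℤ, α = β * q ^ n := by
      intro α hα
      rw [hev, Multiset.mem_map] at hα
      obtain ⟨b, -, rfl⟩ := hα
      obtain ⟨m', hm'⟩ := haβ b
      refine ⟨m' - m, ?_⟩
      rw [hm', hm, mul_assoc, ← zpow_add₀ hq]
      congr 2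
      ring
    rw [Multiset.countP_eq_card.mpr h2, hev, Multiset.card_map]
    simp
  · rw [if_neg hM, Multiset.countP_eq_zero]
    rintro α hα ⟨n, hn⟩
    rw [hev, Multiset.mem_map] at hα
    obtain ⟨b, -, rfl⟩ := hα
    obtain ⟨m', hm'⟩ := haβ b
    refine hM (hiff.mpr ⟨rfl, m' - n, ?_⟩)
    refine mul_right_cancel₀ (zpow_ne_zero n hq) ?_
    rw [← hn, hm', mul_assoc, ← zpow_add₀ hq]
    congr 2
    ring

lemma cnt_evs (hq : q ≠ 0) (S : Multiset P.Lab) (hS : ∀ l ∈ S, l ∈ labs γ q V E) (c : Fin r)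
    (β : Ω) : cnt q (evs γ q V E S c) β = dimc γ q E c β * num γ q V E S c β := by
  classical
  induction S using Multiset.induction_on with
  | empty =>
    unfold evs num cnt
    simp
  | cons l S ih =>
    have ih' := ih fun l hl => hS l (Multiset.mem_cons_of_mem hl)
    obtain ⟨c', β', hl⟩ := exists_Mt (hS l (Multiset.mem_cons_self _ _))
    rw [num_cons]
    by_cases hc : cidx γ q V E l = some c
    · have hcc : c' = c := Option.some.inj (hl.1.symm.trans hc)
      subst hcc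
      have h1 : evs γ q V E (l ::ₘ S) c' = ev γ l + evs γ q V E S c' := by
        unfold evs
        rw [Multiset.filter_cons_of_pos (p := fun l => cidx γ q V E l = some c') S hc,
          Multiset.cons_bind]
      rw [h1, cnt_add, ih', cnt_ev hq hl]
      split_ifs
      · ring
      · ring
    · have h1 : evs γ q V E (l ::ₘ S) c = evs γ q V E S c := by
        unfold evs
        rw [Multiset.filter_cons_of_neg (p := fun l => cidx γ q V E l = some c) S hc]
      have h2 : ¬ Mt γ q V E l c β := fun h => hc h.1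
      rw [h1, ih', if_neg h2, add_zero]

lemma prod_evs (S : Multiset P.Lab) (hS : ∀ l ∈ S, l ∈ labs γ q V E) :
    ∏ c, (evs γ q V E S c).prod = (S.map fun l => (ev γ l).prod).prod := by
  classical
  induction S using Multiset.induction_on with
  | empty => simp [evs]
  | cons l S ih =>
    obtain ⟨c', β', hl⟩ := exists_Mt (hS l (Multiset.mem_cons_self _ _))
    rw [Multiset.map_cons, Multiset.prod_cons, ← ih fun l hl => hS l
      (Multiset.mem_cons_of_mem hl)]
    have h1 : ∀ c, (evs γ q V E (l ::ₘ S) c).prod =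
        (if c = c' then (ev γ l).prod else 1) * (evs γ q V E S c).prod := by
      intro c
      by_cases hc : c = c'
      · subst hc
        rw [if_pos rfl]
        unfold evs
        rw [Multiset.filter_cons_of_pos (p := fun l => cidx γ q V E l = some c) S hl.1,
          Multiset.cons_bind, Multiset.prod_add]
      · rw [if_neg hc, one_mul]
        unfold evs
        rw [Multiset.filter_cons_of_neg (p := fun l => cidx γ q V E l = some c) S]
        rw [hl.1]
        exact fun h => hc (Option.some.inj h).symm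
    rw [Finset.prod_congr rfl fun c _ => h1 c, Finset.prod_mul_distrib, Finset.prod_ite_eq',
      if_pos (Finset.mem_univ _)]

include hm hγ hqs hE in
lemma evs_conj (σ : Ω ≃ₐ[K] Ω) (S : Multiset P.Lab) (hS : ∀ l ∈ S, l ∈ labs γ q V E)
    (c : Fin r) : evs γ q V E (S.map (Lab.conj σ)) c = (evs γ q V E S c).map σ := by
  classical
  unfold evs
  rw [Multiset.filter_map, Multiset.bind_map, Multiset.map_bind]
  have h1 : ((fun l => cidx γ q V E l = some c) ∘ Lab.conj σ) =
      fun l => cidx γ q V E l = some c := by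
    funext l
    exact congrArg (· = some c) (cidx_conj hm hγ hqs hE σ l)
  simp only [h1]
  refine Multiset.bind_congr fun l hl => ?_
  exact ev_conj hγ σ (hS l (Multiset.mem_of_mem_filter hl))

end Conj

end Labels

end Pool.Agent.Helper11.Rl
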