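import Mathlib
import Pool.Agent.Helper11.Rl.Rel
import Pool.Agent.Helper10.Crit

/-!
# Conjecture D from symmetric relations between eigenvalues
-/

universe u v w t

open CategoryTheory Finset

namespace Pool.Agent.Helper11.Rl

open Pool.Agent.Helper10 SmProjVar SPre Pool.Agent.Helper10.GIT Iso

variable {k : Type u} [Field k] {K : Type t} [Field K] {Ω : Type v} [Field Ω] [Algebra K Ω]
  {P : SPre.{u, v, w, t} k K Ω}

variable {T : P.Test} {q : Ω} {r : ℕ} {V : Fin r → SmProjVar k}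
  {E : ∀ c, Submodule Ω (P.H (V c))}

/-- the symmetric relations condition -/
def SymRel (γ : P.Sym) (q : Ω) (V : Fin r → SmProjVar k)
    (E : ∀ c, Submodule Ω (P.H (V c))) : Prop :=
  ∀ M : Fin r → Multiset Ω, (∀ c, ∀ α ∈ M c, ∃ z ∈ E c, z ≠ 0 ∧ γ.g (V c) z = α • z) →
    (∀ (σ : Ω ≃ₐ[K] Ω) c, (M c).map σ = M c) → (∃ n : ℤ, ∏ c, (M c).prod = q ^ n) →
      ∀ c β, cnt q (M c) β = cnt q (M c) β⁻¹

lemma labelSetA (hP : Pieces T.γ q V E)
    (hm : ∀ (σ τ : Ω ≃ₐ[K] Ω) X x, P.s (σ * τ) X x = P.s σ X (P.s τ X x))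
    (hγ : ∀ (σ : Ω ≃ₐ[K] Ω) X x, T.γ.g X (P.s σ X x) = P.s σ X (T.γ.g X x))
    (hqs : ∀ σ : Ω ≃ₐ[K] Ω, σ q = q)
    (hfin : ∀ l : P.Lab, (Set.range fun σ : Ω ≃ₐ[K] Ω => l.conj σ).Finite) :
    LabelSetA (fun _ : Unit => T) (labs T.γ q V E) (fun l _ => (ev T.γ l).prod) where
  fam l hl := by
    obtain ⟨c, β, n, e, rfl, hn, he⟩ := hl
    exact he.famA hP.ne_zero (hP.tate c)
  eig l hl _ Z p := by
    obtain ⟨c, β, h⟩ := hl
    obtain ⟨a, ha, h0, -, hev⟩ := h.exists_eig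
    rw [hev]
    have h1 := rowDet_eigen T.γ ha p
    unfold Test.E
    rw [Module.End.mem_maxGenEigenspace]
    refine ⟨1, ?_⟩
    rw [pow_one, LinearMap.sub_apply, LinearMap.smul_apply, Module.End.one_apply]
    exact sub_eq_zero.mpr h1
  conj l hl σ := by
    obtain ⟨c, β, h⟩ := hl
    exact ⟨c, σ β, h.conj hm hγ hqs (fun c => (hP.tate c).conj) σ⟩
  fin l _ := hfin l

lemma num_nsmul (m : ℕ) (S : Multiset P.Lab) (c : Fin r) (β : Ω) (γ : P.Sym) :
    num γ q V E (m • S) c β = m * num γ q V E S c β := by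
  classical
  unfold num
  rw [Multiset.countP_nsmul]

lemma relations (hP : Pieces T.γ q V E) [CharZero Ω]
    (hU : ∀ a, a ∈ T.U ↔ ∃ n : ℤ, a = q ^ n)
    (hm : ∀ (σ τ : Ω ≃ₐ[K] Ω) X x, P.s (σ * τ) X x = P.s σ X (P.s τ X x))
    (hγ : ∀ (σ : Ω ≃ₐ[K] Ω) X x, T.γ.g X (P.s σ X x) = P.s σ X (T.γ.g X x))
    (hqs : ∀ σ : Ω ≃ₐ[K] Ω, σ q = q) (hR : SymRel T.γ q V E) :
    Relations (fun _ : Unit => T) (labs T.γ q V E) (fun l _ => (ev T.γ l).prod) := by
  classical
  have hq := hP.ne_zero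
  intro S hS0 hS hinv hprod
  have hM := hR (evs T.γ q V E S) (fun c α hα => by
      unfold evs at hα
      rw [Multiset.mem_bind] at hα
      obtain ⟨l, hl, hα⟩ := hα
      rw [Multiset.mem_filter] at hl
      obtain ⟨β, hβ⟩ := pick_mem hl.2
      exact hβ.mem_eigen hα) (fun σ c => by
      rw [← evs_conj hm hγ hqs (fun c => (hP.tate c).conj) σ S hS c, hinv σ]) (by
      obtain ⟨n, hn⟩ := (hU _).mp (hprod ())
      exact ⟨n, (prod_evs S hS).trans hn⟩)
  have hnum0 : ∀ c β, dimc T.γ q E c β = 0 → num T.γ q V E S c β = 0 := by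
    intro c β h0
    unfold num
    rw [Multiset.countP_eq_zero]
    rintro l - hl
    have h1 := hl.2.card
    obtain ⟨n, e, rfl, hn, he⟩ := hl.2
    change n = _ at h1
    omega
  have hbal : ∀ c β, num T.γ q V E S c β = num T.γ q V E S c β⁻¹ := by
    intro c β
    have h1 := hM c β
    rw [cnt_evs hq S hS, cnt_evs hq S hS, ← dimc_inv hP] at h1
    rcases Nat.eq_zero_or_pos (dimc T.γ q E c β) with h0 | h0
    · rw [hnum0 c β h0, hnum0 c β⁻¹ (by rw [← dimc_inv hP]; exact h0)]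
    · exact Nat.eq_of_mul_eq_mul_left h0 h1
  refine ⟨2, by omega, fun Z y hy => ?_⟩
  refine alg_of_balanced hP _ (2 • S) rfl (fun l hl => hS l (Multiset.mem_of_mem_nsmul hl))
    (fun c β => ?_) (fun c β _ => ?_) Z y hy
  · rw [num_nsmul, num_nsmul, hbal c β]
  · rw [num_nsmul]
    exact even_two_mul _

/-- products of pull-backs of elements of the pieces -/
def pwords (V : Fin r → SmProjVar k) (E : ∀ c, Submodule Ω (P.H (V c))) (Z : SmProjVar k) :
    Submonoid (P.H Z) :=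
  Submonoid.closure {y | ∃ (c : Fin r) (f : Z.toOver ⟶ (V c).toOver), ∃ e ∈ E c, y = P.pull f e}

/-- the cohomology of `Y` is spanned by images of products of pull-backs of elements of the
pieces -/
def GenE (V : Fin r → SmProjVar k) (E : ∀ c, Submodule Ω (P.H (V c))) (Y : SmProjVar k) : Prop :=
  Submodule.span Ω {y : P.H Y | ∃ (Z X : SmProjVar k), ∃ w ∈ pwords V E Z,
    ∃ (h : X.toOver ⟶ Z.toOver) (g : X.toOver ⟶ Y.toOver), ∃ c ∈ P.alg X,
      y = P.pushF g (P.pull h w * c)} = ⊤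

lemma mem_span_lwords (hP : Pieces T.γ q V E) {Z : SmProjVar k} {w : P.H Z}
    (hw : w ∈ pwords V E Z) : w ∈ Submodule.span Ω (lwords (labs T.γ q V E) Z) := by
  unfold pwords at hw
  induction hw using Submonoid.closure_induction with
  | one => exact Submodule.subset_span (lwords_one Z)
  | mul x y _ _ hx hy =>
    have h1 := Submodule.mul_mem_mul hx hy
    rw [Submodule.span_mul_span] at h1
    refine Submodule.span_mono ?_ h1
    rintro _ ⟨a, ha, b, hb, rfl⟩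
    exact lwords_mul ha hb
  | mem x hx =>
    obtain ⟨c, f, e, he, rfl⟩ := hx
    obtain ⟨m, b, a, hb, hE, ha⟩ := (hP.tate c).exists_eigenbasis
    rw [← hE, Submodule.mem_span_range_iff_exists_fun] at he
    obtain ⟨x, rfl⟩ := he
    rw [map_sum]
    refine Submodule.sum_mem _ fun i _ => ?_
    rw [map_smul]
    refine Submodule.smul_mem _ _ (Submodule.subset_span ?_)
    obtain ⟨n, φ, hφ, -, hφ2⟩ := exists_isLab hb hE ha (a i)
    obtain ⟨j, hj⟩ := (hφ2 i).mp ⟨0, by rw [zpow_zero, mul_one]⟩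
    rw [mem_lwords_iff]
    refine Submonoid.subset_closure ⟨⟨V c, n, fun j => b (φ j)⟩, ⟨c, a i, n, _, rfl, j.pos, hφ⟩,
      f, j, ?_⟩
    change _ = P.pull f (b (φ j))
    rw [hj]

lemma genW_of_genE (hP : Pieces T.γ q V E) {Y : SmProjVar k} (hY : GenE V E Y) :
    GenW (labs T.γ q V E) Y := by
  unfold GenE at hY
  unfold GenW
  rw [eq_top_iff, ← hY, Submodule.span_le]
  rintro y ⟨Z, X, w, hw, h, g, c, hc, rfl⟩
  have hw' := mem_span_lwords hP hw
  clear hw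
  induction hw' using Submodule.span_induction with
  | mem w hw => exact Submodule.subset_span ⟨Z, X, w, hw, h, g, c, hc, rfl⟩
  | zero =>
    rw [map_zero, zero_mul, map_zero]
    exact Submodule.zero_mem _
  | add a b _ _ ha hb =>
    rw [map_add, add_mul, map_add]
    exact Submodule.add_mem _ ha hb
  | smul a x _ hx =>
    rw [map_smul, smul_mul_assoc, map_smul]
    exact Submodule.smul_mem _ _ hx

lemma genW_pow {L : Set P.Lab} {Y : SmProjVar k} (hY : GenW L Y) (n : ℕ) :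
    GenW L (Y.selfProd n) := by
  induction n with
  | zero => exact hY
  | succ n ih => exact GenW.prod ih hY

/-- **D for everything generated by the pieces** -/
theorem d_of_symRel [CharZero Ω] [IsAlgClosed Ω] (hP : Pieces T.γ q V E)
    (hU : ∀ a, a ∈ T.U ↔ ∃ n : ℤ, a = q ^ n)
    (hm : ∀ (σ τ : Ω ≃ₐ[K] Ω) X x, P.s (σ * τ) X x = P.s σ X (P.s τ X x))
    (hγ : ∀ (σ : Ω ≃ₐ[K] Ω) X x, T.γ.g X (P.s σ X x) = P.s σ X (T.γ.g X x))
    (hqs : ∀ σ : Ω ≃ₐ[K] Ω, σ q = q)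
    (hfin : ∀ l : P.Lab, (Set.range fun σ : Ω ≃ₐ[K] Ω => l.conj σ).Finite)
    (hR : SymRel T.γ q V E) {X : SmProjVar k} (hX : P.DP X) (hXT : T.Good X) {Y : SmProjVar k}
    (hY : GenE V E Y) (n : ℕ) : P.D (X.prod (Y.selfProd n)) :=
  prod_dA hm (labelSetA hP hm hγ hqs hfin) (relations hP hU hm hγ hqs hR) hX (fun _ => hXT)
    (genW_pow (genW_of_genE hP hY) n)

end Pool.Agent.Helper11.Rl
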